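import Pool.Agent.Lib.MP_e16db3_al.TM

/-!
# A two-register affine machine with undecidable halting problem
-/

namespace Pool.Agent.WreathContraction

open Turing Turing.PartrecToTM2

theorem exists_toPartrec : ∃ c : ToPartrec.Code, ∀ n : ℕ, (c.eval [n]).Dom ↔
    (Nat.Partrec.Code.eval (Denumerable.ofNat Nat.Partrec.Code n) 0).Dom := by
  have h1 : Partrec fun n : ℕ =>
      Nat.Partrec.Code.eval (Denumerable.ofNat Nat.Partrec.Code n) 0 :=
    Nat.Partrec.Code.eval_part.comp (Computable.ofNat _) (Computable.const 0)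
  obtain ⟨c, hc⟩ := ToPartrec.Code.exists_code (Nat.Partrec'.part_iff₁.2 h1)
  refine ⟨c, fun n => ?_⟩
  have h := hc (n ::ᵥ List.Vector.nil)
  have e : (n ::ᵥ List.Vector.nil : List.Vector ℕ 1).1 = [n] := rfl
  rw [e] at h
  rw [h]
  rfl

instance : Fintype K' := ⟨{K'.main, K'.rev, K'.aux, K'.stack}, by rintro (_ | _ | _ | _) <;> simp⟩

/-- the tape alphabet -/
abbrev TapeΓ : Type := TM2to1.Γ' K' (fun _ => Γ')

/-- the symbol of the tape carrying one symbol of the main stack -/
def cell (a : Γ') : TapeΓ :=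
  (false, Function.update (fun _ => none) K'.main (some a))

/-- the first symbol of the tape -/
def cell₀ : TapeΓ :=
  (true, Function.update (fun _ => none) K'.main (some Γ'.cons))

theorem trInit_eq (n : ℕ) : TM2to1.trInit (Γ := fun _ : K' => Γ') K'.main (trList [n]) =
    cell₀ :: ((trNat n).reverse.map cell) := by
  unfold TM2to1.trInit
  simp only [trList, List.reverse_append, List.reverse_cons, List.reverse_nil, List.nil_append,
    List.map_cons, List.singleton_append, List.tail_cons]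
  rfl

/-- the number computed from the binary digits of `n`, most significant digit first -/
def betaF (Q d₀ d₁ : ℕ) (p : ℕ × ℕ) : ℕ × ℕ :=
  if p.1 = 0 then p else (p.1 / 2, (if p.1 % 2 = 1 then d₁ else d₀) + Q * p.2)

/-- the register contents for the input `n` -/
def beta (Q d₀ d₁ n : ℕ) : ℕ := ((betaF Q d₀ d₁)^[n] (n, 0)).2

theorem betaF_zero (Q d₀ d₁ k a : ℕ) : (betaF Q d₀ d₁)^[k] (0, a) = (0, a) := by
  induction k with
  | zero => rfl
  | succ k ih => rw [Function.iterate_succ_apply]; exact ih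

theorem betaF_pos (Q d₀ d₁ : ℕ) (dg : Γ' → ℕ) (h0 : dg Γ'.bit0 = d₀) (h1 : dg Γ'.bit1 = d₁)
    (p : PosNum) : ∀ (k a : ℕ), (p : ℕ) ≤ k →
      ((betaF Q d₀ d₁)^[k] ((p : ℕ), a)).2 =
        (trPosNum p).foldl (fun acc b => dg b + Q * acc) a := by
  induction p with
  | one =>
    intro k a hk
    obtain ⟨k, rfl⟩ : ∃ k', k = k' + 1 := ⟨k - 1, by simp at hk; omega⟩
    rw [Function.iterate_succ_apply]
    have e : betaF Q d₀ d₁ (((PosNum.one : PosNum) : ℕ), a) = (0, d₁ + Q * a) := by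
      simp [betaF]
    rw [e, betaF_zero]
    simp [trPosNum, h1]
  | bit0 p ih =>
    intro k a hk
    have hp := p.to_nat_pos
    have hc : ((PosNum.bit0 p : PosNum) : ℕ) = 2 * (p : ℕ) := by
      rw [PosNum.cast_bit0]; ring
    rw [hc] at hk ⊢
    obtain ⟨k, rfl⟩ : ∃ k', k = k' + 1 := ⟨k - 1, by omega⟩
    rw [Function.iterate_succ_apply]
    have e : betaF Q d₀ d₁ (2 * (p : ℕ), a) = ((p : ℕ), d₀ + Q * a) := by
      have h2 : ¬ 2 * (p : ℕ) = 0 := by omega
      have h3 : ¬ 2 * (p : ℕ) % 2 = 1 := by omega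
      simp only [betaF, if_neg h2, if_neg h3]
      congr 1
      omega
    rw [e, ih _ _ (by omega)]
    simp [trPosNum, h0]
  | bit1 p ih =>
    intro k a hk
    have hp := p.to_nat_pos
    have hc : ((PosNum.bit1 p : PosNum) : ℕ) = 2 * (p : ℕ) + 1 := by
      rw [PosNum.cast_bit1]; ring
    rw [hc] at hk ⊢
    obtain ⟨k, rfl⟩ : ∃ k', k = k' + 1 := ⟨k - 1, by omega⟩
    rw [Function.iterate_succ_apply]
    have e : betaF Q d₀ d₁ (2 * (p : ℕ) + 1, a) = ((p : ℕ), d₁ + Q * a) := by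
      have h2 : ¬ 2 * (p : ℕ) + 1 = 0 := by omega
      have h3 : (2 * (p : ℕ) + 1) % 2 = 1 := by omega
      simp only [betaF, if_neg h2, if_pos h3]
      congr 1
      omega
    rw [e, ih _ _ (by omega)]
    simp [trPosNum, h1]

theorem num_reverse_map {Γ : Type} [Inhabited Γ] [Fintype Γ] (f : Γ' → Γ) (l : List Γ') :
    num (l.reverse.map f) = l.foldl (fun acc b => dig₀ (f b) + baseQ Γ * acc) 0 := by
  unfold num
  rw [List.foldr_map, List.foldr_reverse]

theorem num_trNat {Γ : Type} [Inhabited Γ] [Fintype Γ] (f : Γ' → Γ) (n : ℕ) :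
    num ((trNat n).reverse.map f) =
      beta (baseQ Γ) (dig₀ (f Γ'.bit0)) (dig₀ (f Γ'.bit1)) n := by
  rw [num_reverse_map]
  unfold trNat beta
  have hn := Num.to_of_nat n
  rcases h : (n : Num) with _ | p
  · rw [h] at hn
    have h0 : n = 0 := by simpa using hn.symm
    subst h0
    rfl
  · rw [h] at hn
    have h1 : (p : ℕ) = n := by simpa using hn
    have h2 := betaF_pos (baseQ Γ) _ _ (fun b => dig₀ (f b)) rfl rfl p n 0 h1.le
    rw [h1] at h2
    rw [h2]
    rfl

theorem exists_mach : ∃ (M : Mach) (_ : Finite M.S) (_ : 2 ≤ M.Q) (s₀ : M.S) (d₀ d₁ : ℕ),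
    ∀ n, M.Halts (s₀, 0, beta M.Q d₀ d₁ n) ↔
      (Nat.Partrec.Code.eval (Denumerable.ofNat Nat.Partrec.Code n) 0).Dom := by
  obtain ⟨c, hc⟩ := exists_toPartrec
  letI inst : Inhabited PartrecToTM2.Λ' := ⟨trNormal c Cont'.halt⟩
  have s1 : TM2.Supports PartrecToTM2.tr (codeSupp c Cont'.halt) :=
    PartrecToTM2.tr_supports c Cont'.halt
  have s2 := TM2to1.tr_supports PartrecToTM2.tr s1
  have s3 := TM1to0.tr_supports (TM2to1.tr PartrecToTM2.tr) s2
  set Mc := TM1to0.tr (TM2to1.tr PartrecToTM2.tr) with hMc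
  set S : Set (TM1to0.Λ' (TM2to1.tr PartrecToTM2.tr)) :=
    ↑(TM1to0.trStmts (TM2to1.tr PartrecToTM2.tr) (TM2to1.trSupp PartrecToTM2.tr
      (codeSupp c Cont'.halt))) with hS
  have hfin : Finite S := Finset.finite_toSet _
  refine ⟨machOf Mc S, ?_, two_le_baseQ (Γ := TapeΓ), (⟨default, s3.1⟩, cell₀),
    dig₀ (cell Γ'.bit0), dig₀ (cell Γ'.bit1), fun n => ?_⟩
  · change Finite (S × TapeΓ)
    infer_instance
  · rw [← hc n]
    have h1 := halts_enc S Mc s3 (TM0.init (cell₀ :: ((trNat n).reverse.map cell))) s3.1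
    have h2 : enc S Mc (TM0.init (cell₀ :: ((trNat n).reverse.map cell))) s3.1 =
        ((⟨default, s3.1⟩, cell₀), 0, beta (baseQ TapeΓ) (dig₀ (cell Γ'.bit0))
          (dig₀ (cell Γ'.bit1)) n) := by
      rw [← num_trNat cell n]
      rfl
    rw [h2] at h1
    refine Iff.trans h1 ?_
    have h3 : (TM0.eval Mc (cell₀ :: ((trNat n).reverse.map cell))).Dom ↔
        (StateTransition.eval (TM0.step Mc)
          (TM0.init (cell₀ :: ((trNat n).reverse.map cell)))).Dom := Iff.rfl
    rw [← h3, TM1to0.tr_eval, ← trInit_eq, TM2to1.tr_eval_dom]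
    have h4 : (TM2.eval PartrecToTM2.tr K'.main (trList [n])).Dom ↔
        (StateTransition.eval (TM2.step PartrecToTM2.tr)
          (TM2.init K'.main (trList [n]))).Dom := Iff.rfl
    rw [h4]
    have h5 : (TM2.init K'.main (trList [n]) : TM2.Cfg (fun _ : K' => Γ') PartrecToTM2.Λ'
        (Option Γ')) = PartrecToTM2.init c [n] := by
      unfold TM2.init PartrecToTM2.init
      congr 1
      funext k
      cases k <;> rfl
    rw [h5, PartrecToTM2.tr_eval]
    rfl

end Pool.Agent.WreathContraction
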