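import Pool.Agent.Lib.MP_e16db3_al.Defs

/-!
# Basic theory of wreath recursions
-/

namespace Pool.Agent.WreathContraction

variable {X Y G : Type} [Group G]

section WrLemmas

theorem Wr.mul_perm (a b : Wr X G) : (a * b).perm = a.perm * b.perm := rfl

theorem Wr.mul_sec (a b : Wr X G) (x : X) :
    (a * b).sec x = a.sec (b.perm x) * b.sec x := rfl

theorem Wr.one_perm : (1 : Wr X G).perm = 1 := rfl

theorem Wr.one_sec (x : X) : (1 : Wr X G).sec x = 1 := rfl

theorem Wr.inv_perm (a : Wr X G) : (a⁻¹).perm = a.perm⁻¹ := rfl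

theorem Wr.inv_sec (a : Wr X G) (x : X) : (a⁻¹).sec x = (a.sec (a.perm⁻¹ x))⁻¹ := rfl

end WrLemmas

variable (Φ : G →* Wr X G)

/-- action of `g` on letters -/
abbrev pm (g : G) : Equiv.Perm X := (Φ g).perm

/-- first level sections -/
abbrev sc (g : G) (x : X) : G := (Φ g).sec x

theorem pm_mul (g h : G) (x : X) : pm Φ (g * h) x = pm Φ g (pm Φ h x) := by
  simp only [pm, map_mul, Wr.mul_perm, Equiv.Perm.mul_apply]

theorem sc_mul (g h : G) (x : X) : sc Φ (g * h) x = sc Φ g (pm Φ h x) * sc Φ h x := by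
  simp only [sc, pm, map_mul, Wr.mul_sec]

theorem pm_one (x : X) : pm Φ 1 x = x := by
  simp only [pm, map_one, Wr.one_perm, Equiv.Perm.one_apply]

theorem sc_one (x : X) : sc Φ 1 x = 1 := by
  simp only [sc, map_one, Wr.one_sec]

theorem pm_inv_pm (g : G) (x : X) : pm Φ g⁻¹ (pm Φ g x) = x := by
  rw [← pm_mul, inv_mul_cancel, pm_one]

theorem pm_pm_inv (g : G) (x : X) : pm Φ g (pm Φ g⁻¹ x) = x := by
  rw [← pm_mul, mul_inv_cancel, pm_one]

theorem sc_inv (g : G) (x : X) : sc Φ g⁻¹ (pm Φ g x) = (sc Φ g x)⁻¹ := by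
  have h := sc_mul Φ g⁻¹ g x
  rw [inv_mul_cancel, sc_one] at h
  exact eq_inv_of_mul_eq_one_left h.symm

/-- the recursion is faithful -/
def Faithful : Prop := ∀ g : G, (∀ w, act Φ g w = w) → g = 1

theorem act_mk (K : Subgroup G) [K.Normal]
    (Ψ : G ⧸ K →* Wr X (G ⧸ K))
    (hΨ : ∀ g : G, Ψ (QuotientGroup.mk' K g) = Wr.map (QuotientGroup.mk' K) (Φ g))
    (g : G) (w : List X) : act Ψ (QuotientGroup.mk' K g) w = act Φ g w := by
  induction w generalizing g with
  | nil => rfl
  | cons x w ih =>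
    change (Ψ (QuotientGroup.mk' K g)).perm x :: act Ψ ((Ψ (QuotientGroup.mk' K g)).sec x) w
      = (Φ g).perm x :: act Φ ((Φ g).sec x) w
    rw [hΨ]
    change (Φ g).perm x :: act Ψ (QuotientGroup.mk' K ((Φ g).sec x)) w = _
    rw [ih]

theorem induced_mk (g : G) : induced Φ (QuotientGroup.mk' (ker Φ) g)
    = Wr.map (QuotientGroup.mk' (ker Φ)) (Φ g) := rfl

theorem induced_faithful : Faithful (induced Φ) := by
  intro q hq
  obtain ⟨g, rfl⟩ := QuotientGroup.mk'_surjective (ker Φ) q
  refine (QuotientGroup.eq_one_iff g).2 ?_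
  intro w
  rw [← act_mk Φ (ker Φ) (induced Φ) (induced_mk Φ) g w]
  exact hq w

variable {Φ}

theorem Faithful.eq_one (hf : Faithful Φ) {g : G} (hp : ∀ x, pm Φ g x = x)
    (hs : ∀ x, sc Φ g x = 1) : g = 1 := by
  apply hf
  intro w
  cases w with
  | nil => rfl
  | cons x w =>
    change pm Φ g x :: act Φ (sc Φ g x) w = x :: w
    rw [hp, hs, act_one]

theorem Faithful.ext (hf : Faithful Φ) {g h : G} (hp : ∀ x, pm Φ g x = pm Φ h x)
    (hs : ∀ x, sc Φ g x = sc Φ h x) : g = h := by
  have key : h⁻¹ * g = 1 := by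
    apply hf.eq_one
    · intro x
      rw [pm_mul, hp, pm_inv_pm]
    · intro x
      rw [sc_mul, hs, hp, sc_inv, inv_mul_cancel]
  exact (inv_mul_eq_one.1 key).symm

theorem Faithful.coind (hf : Faithful Φ) (Z : Set G)
    (hZ : ∀ z ∈ Z, (∀ x, pm Φ z x = x) ∧ ∀ x, sc Φ z x ∈ Z) : ∀ z ∈ Z, z = 1 := by
  have key : ∀ w : List X, ∀ z ∈ Z, act Φ z w = w := by
    intro w
    induction w with
    | nil => intro z _; rfl
    | cons x w ih =>
      intro z hz
      change pm Φ z x :: act Φ (sc Φ z x) w = x :: w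
      rw [(hZ z hz).1, ih _ ((hZ z hz).2 x)]
  intro z hz
  exact hf z fun w => key w z hz

variable (Φ)

theorem sectionAt_nil (g : G) : sectionAt Φ g [] = g := rfl

theorem sectionAt_cons (g : G) (x : X) (v : List X) :
    sectionAt Φ g (x :: v) = sectionAt Φ (sc Φ g x) v := rfl

/-- A criterion for contraction. -/
theorem contracting_of_norm (nm : G → ℕ → Prop) (M₀ : ℕ) (hfin : {g | nm g M₀}.Finite)
    (hmono : ∀ g M M', M ≤ M' → nm g M → nm g M')
    (hex : ∀ g, ∃ M, nm g M) (hstep : ∀ g M x, nm g M → nm (sc Φ g x) (max M₀ (M - 1))) :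
    Contracting Φ := by
  have key : ∀ (v : List X) (g : G) (M : ℕ), nm g M →
      nm (sectionAt Φ g v) (max M₀ (M - v.length)) := by
    intro v
    induction v with
    | nil => intro g M h; exact hmono _ _ _ (by simp) h
    | cons x v ih =>
      intro g M h
      rw [sectionAt_cons]
      refine hmono _ _ _ ?_ (ih _ _ (hstep g M x h))
      simp only [List.length_cons]
      omega
  refine ⟨{g | nm g M₀}, hfin, fun g => ?_⟩
  obtain ⟨M, hM⟩ := hex g
  refine ⟨M, fun v hv => ?_⟩
  have h := key v g M hM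
  rwa [Nat.sub_eq_zero_of_le hv, Nat.max_zero] at h

/-- Transport of wreath products along a bijection of alphabets. -/
def Wr.congr (e : X ≃ Y) : Wr X G →* Wr Y G where
  toFun a := ⟨(e.symm.trans a.perm).trans e, fun y => a.sec (e.symm y)⟩
  map_one' := by
    apply Wr.ext
    · ext y
      simp [Wr.one_perm]
    · rfl
  map_mul' a b := by
    apply Wr.ext
    · ext y
      simp [Wr.mul_perm]
    · funext y
      simp [Wr.mul_sec]

theorem pm_congr (e : X ≃ Y) (g : G) (x : X) :
    pm ((Wr.congr e).comp Φ) g (e x) = e (pm Φ g x) := by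
  change e ((Φ g).perm (e.symm (e x))) = _
  rw [e.symm_apply_apply]

theorem sc_congr (e : X ≃ Y) (g : G) (x : X) :
    sc ((Wr.congr e).comp Φ) g (e x) = sc Φ g x := by
  change (Φ g).sec (e.symm (e x)) = _
  rw [e.symm_apply_apply]

theorem act_congr (e : X ≃ Y) (g : G) (w : List X) :
    act ((Wr.congr e).comp Φ) g (w.map e) = (act Φ g w).map e := by
  induction w generalizing g with
  | nil => rfl
  | cons x w ih =>
    change pm ((Wr.congr e).comp Φ) g (e x) ::
      act ((Wr.congr e).comp Φ) (sc ((Wr.congr e).comp Φ) g (e x)) (w.map e) =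
      e (pm Φ g x) :: (act Φ (sc Φ g x) w).map e
    rw [pm_congr, sc_congr, ih]

theorem faithful_congr (e : X ≃ Y) (hf : Faithful Φ) : Faithful ((Wr.congr e).comp Φ) := by
  intro g hg
  apply hf
  intro w
  have h := hg (w.map e)
  rw [act_congr] at h
  exact (List.map_injective_iff.2 e.injective) h

theorem sectionAt_congr (e : X ≃ Y) (g : G) (v : List X) :
    sectionAt ((Wr.congr e).comp Φ) g (v.map e) = sectionAt Φ g v := by
  induction v generalizing g with
  | nil => rfl
  | cons x v ih =>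
    rw [List.map_cons, sectionAt_cons, sectionAt_cons, sc_congr, ih]

theorem contracting_congr (e : X ≃ Y) :
    Contracting ((Wr.congr e).comp Φ) ↔ Contracting Φ := by
  constructor
  · rintro ⟨N, hN, h⟩
    refine ⟨N, hN, fun g => ?_⟩
    obtain ⟨n, hn⟩ := h g
    refine ⟨n, fun v hv => ?_⟩
    rw [← sectionAt_congr Φ e]
    exact hn _ (by simpa using hv)
  · rintro ⟨N, hN, h⟩
    refine ⟨N, hN, fun g => ?_⟩
    obtain ⟨n, hn⟩ := h g
    refine ⟨n, fun v hv => ?_⟩
    have hv' : v = (v.map e.symm).map e := by simp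
    rw [hv', sectionAt_congr]
    exact hn _ (by simpa using hv)

end Pool.Agent.WreathContraction
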