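import Pool.Agent.Lib.MP_e16db3_al.Model

/-!
# The length estimate behind contraction
-/

namespace Pool.Agent.WreathContraction

/-- the `ℓ¹` norm -/
def nrm (a : ℤ × ℤ) : ℕ := a.1.natAbs + a.2.natAbs

theorem nrm_zero : nrm 0 = 0 := rfl

theorem nrm_neg (a : ℤ × ℤ) : nrm (-a) = nrm a := by simp [nrm]

theorem nrm_add_le (a b : ℤ × ℤ) : nrm (a + b) ≤ nrm a + nrm b := by
  simp only [nrm, Prod.fst_add, Prod.snd_add]
  omega

theorem two_nrm_carry2_le {Q : ℕ} (hQ : 2 ≤ Q) (i : ZMod Q × ZMod Q) (a : ℤ × ℤ) :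
    2 * nrm (carry2 i a) ≤ nrm a + 4 := by
  have h1 := two_carry_le hQ i.1 a.1
  have h2 := two_carry_le hQ i.2 a.2
  simp only [nrm, carry2]
  omega

theorem nrm_mask_le {M : Mach} (s : M.S) (j : M.J) (v : ℕ) (a : ℤ × ℤ) :
    nrm (mask M s j v a) ≤ nrm a := by
  simp only [nrm, mask]
  split_ifs <;> simp

variable {G : Type} [Group G] {S : Type}

/-- `Rep g N z`: `g` is a product of `N` reflections and of translations of total norm at most
`z`. -/
inductive Rep (x y : G) (τ : Bool → S → G) : G → ℕ → ℕ → Prop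
  | base (a : ℤ × ℤ) (z : ℕ) : nrm a ≤ z → Rep x y τ (Tr x y a) 0 z
  | cons (a : ℤ × ℤ) (c : Bool) (s : S) (g : G) (N z z' : ℕ) : nrm a ≤ z' → Rep x y τ g N z →
      Rep x y τ (Tr x y a * τ c s * g) (N + 1) (z + z')

/-- words in the reflections with a fixed state and the translations, starting with a
reflection -/
inductive Red (x y : G) (τ : Bool → S → G) (s : S) : G → Option Bool → ℕ → ℕ → Prop
  | nil : Red x y τ s 1 none 0 0
  | cons (c : Bool) (q : ℤ × ℤ) (h : G) (f : Option Bool) (n z : ℕ) : Red x y τ s h f n z →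
      Red x y τ s (τ c s * Tr x y q * h) (some c) (n + 1) (z + nrm q)

theorem Red.rep {x y : G} {τ : Bool → S → G} {s : S} {h : G} {f : Option Bool} {n z : ℕ}
    (hr : Red x y τ s h f n z) : ∀ q : ℤ × ℤ, Rep x y τ (Tr x y q * h) n (z + nrm q) := by
  induction hr with
  | nil => intro q; rw [mul_one]; exact Rep.base q _ (by omega)
  | cons c q₁ h f n z _ ih =>
    intro q
    have e : Tr x y q * (τ c s * Tr x y q₁ * h) = Tr x y q * τ c s * (Tr x y q₁ * h) := by
      group
    rw [e]
    exact Rep.cons q c s _ n _ _ le_rfl (ih q₁)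

/-- the extra cost available at vertex `v` -/
def extra (m v : ℕ) (f : Option Bool) (q : ℤ × ℤ) : ℕ :=
  match f with
  | none => 2
  | some false => if q = 0 then min v 2 else 2
  | some true => if q = 0 then min (2 * m - v) 2 else 2

theorem extra_le (m v : ℕ) (f : Option Bool) (q : ℤ × ℤ) : extra m v f q ≤ 2 := by
  rcases f with _ | (_ | _) <;> simp only [extra] <;> (try split_ifs) <;> omega

variable {M : Mach}

/-- the state of the process computing the section of a word at a letter -/
def St (m : ℕ) (x y : G) (τ : Bool → M.S → G) (s : M.S) (j : M.J) (v : ℕ) (h : G) (N Z : ℕ) :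
    Prop :=
  ∃ (q : ℤ × ℤ) (f : Option Bool) (n z : ℕ) (h' : G), h = Tr x y q * h' ∧
    Red x y τ (M.next s j) h' f n z ∧ 3 * n + extra m v f q ≤ N + 2 ∧ 2 * (z + nrm q) ≤ Z

theorem St.mono {m : ℕ} {x y : G} {τ : Bool → M.S → G} {s : M.S} {j : M.J} {v : ℕ} {h : G}
    {N Z N' Z' : ℕ} (hs : St m x y τ s j v h N Z) (h1 : N ≤ N') (h2 : Z ≤ Z') :
    St m x y τ s j v h N' Z' := by
  obtain ⟨q, f, n, z, h', e, hr, h3, h4⟩ := hs
  exact ⟨q, f, n, z, h', e, hr, by omega, by omega⟩

theorem St.rep {m : ℕ} {x y : G} {τ : Bool → M.S → G} {s : M.S} {j : M.J} {v : ℕ} {h : G}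
    {N Z : ℕ} (hs : St m x y τ s j v h N Z) :
    ∃ n z, Rep x y τ h n z ∧ 3 * n ≤ N + 2 ∧ 2 * z ≤ Z := by
  obtain ⟨q, f, n, z, h', rfl, hr, h3, h4⟩ := hs
  exact ⟨n, z + nrm q, hr.rep q, by omega, h4⟩

theorem mask_cases {m : ℕ} (s : M.S) (j : M.J) (v : ℕ) (a : ℤ × ℤ)
    (hm : (M.A s j).1 + (M.A s j).2 + 2 ≤ m) :
    mask M s j v a = 0 ∨ (2 ≤ v ∧ v + 2 ≤ 2 * m) := by
  by_cases h1 : mu M false s j v = true
  · right
    simp only [mu, Bool.false_eq_true, if_false, decide_eq_true_eq] at h1
    omega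
  · by_cases h2 : mu M true s j v = true
    · right
      simp only [mu, if_true, decide_eq_true_eq] at h2
      omega
    · left
      simp [mask, h1, h2]

namespace IsModel

variable {m : ℕ} {Φ : G →* Wr (Alph M m) G} {x y : G} {τ : Bool → M.S → G} {w g : G}

theorem St_T (hM : IsModel Φ x y τ w g) {s : M.S} {j : M.J} {v : ℕ} {h : G} {N Z : ℕ}
    (hs : St m x y τ s j v h N Z) (a : ℤ × ℤ) :
    St m x y τ s j v (Tr x y (mask M s j v a) * h) N (Z + 2 * nrm a) := by
  obtain ⟨q, f, n, z, h', rfl, hr, h3, h4⟩ := hs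
  refine ⟨mask M s j v a + q, f, n, z, h', ?_, hr, ?_, ?_⟩
  · rw [hM.Tr_add, mul_assoc]
  · rcases mask_cases s j v a (hM.hm s j) with h0 | ⟨h1, h2⟩
    · rw [h0, zero_add]; exact h3
    · have h5 := extra_le m v f (mask M s j v a + q)
      have h6 : extra m v f q = 2 := by
        rcases f with _ | (_ | _) <;> simp only [extra] <;> (try split_ifs) <;> omega
      omega
  · have h5 := nrm_add_le (mask M s j v a) q
    have h6 := nrm_mask_le s j v a
    omega

theorem St_τ (hM : IsModel Φ x y τ w g) {s : M.S} {j : M.J} {v : ℕ} {h : G} {N Z D : ℕ}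
    (hv : v < 2 * m + 1) (hD : nrm (off M s j) ≤ D) (c : Bool)
    (hs : St m x y τ s j v h N Z) :
    St m x y τ s j (flipN m c v)
      ((if v = endp m c then τ c (M.next s j)
        else if c = false ∧ v = 1 then Tr x y (-off M s j)
        else if c = false ∧ v = 2 then Tr x y (off M s j) else 1) * h) (N + 1) (Z + 2 * D) := by
  have hm2 : 2 ≤ m := by have := hM.hm s j; omega
  obtain ⟨q, f, n, z, h', rfl, hr, h3, h4⟩ := hs
  by_cases hend : v = endp m c
  · rw [if_pos hend]
    have hfl : flipN m c v = v := by rw [hend, flipN_endp]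
    rw [hfl]
    by_cases hcase : f = some c ∧ q = 0
    · obtain ⟨rfl, rfl⟩ := hcase
      cases hr with
      | cons _ q₁ h₁ f₁ n₁ z₁ hr₁ =>
        refine ⟨q₁, f₁, n₁, z₁, h₁, ?_, hr₁, ?_, ?_⟩
        · rw [Tr_zero, one_mul, ← mul_assoc, ← mul_assoc, hM.τ_sq, one_mul]
        · have := extra_le m v f₁ q₁
          omega
        · rw [nrm_zero] at h4
          omega
    · have hex : extra m v f q = 2 := by
        rcases f with _ | f
        · rfl
        · by_cases hq : q = 0
          · have hf : f ≠ c := fun e => hcase ⟨by rw [e], hq⟩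
            cases c <;> cases f
            · exact absurd rfl hf
            · simp only [endp, Bool.false_eq_true, if_false] at hend
              simp only [extra, if_pos hq]
              omega
            · simp only [endp, if_true] at hend
              simp only [extra, if_pos hq]
              omega
            · exact absurd rfl hf
          · cases f <;> simp only [extra, if_neg hq]
      refine ⟨0, some c, n + 1, z + nrm q, τ c (M.next s j) * Tr x y q * h', ?_,
        Red.cons c q h' f n z hr, ?_, ?_⟩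
      · rw [Tr_zero, one_mul, mul_assoc]
      · have : extra m v (some c) 0 = 0 := by
          cases c
          · simp only [endp, Bool.false_eq_true, if_false] at hend
            simp [extra, hend]
          · simp only [endp, if_true] at hend
            simp [extra, hend]
        omega
      · rw [nrm_zero]
        omega
  · rw [if_neg hend]
    by_cases h1 : c = false ∧ v = 1
    · obtain ⟨rfl, rfl⟩ := h1
      rw [if_pos ⟨rfl, rfl⟩]
      refine ⟨-off M s j + q, f, n, z, h', ?_, hr, ?_, ?_⟩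
      · rw [hM.Tr_add, mul_assoc]
      · have h5 := extra_le m (flipN m false 1) f (-off M s j + q)
        have h6 : 1 ≤ extra m 1 f q := by
          rcases f with _ | (_ | _) <;> simp only [extra] <;> (try split_ifs) <;> omega
        omega
      · have h5 := nrm_add_le (-off M s j) q
        rw [nrm_neg] at h5
        omega
    · rw [if_neg h1]
      by_cases h2 : c = false ∧ v = 2
      · obtain ⟨rfl, rfl⟩ := h2
        rw [if_pos ⟨rfl, rfl⟩]
        refine ⟨off M s j + q, f, n, z, h', ?_, hr, ?_, ?_⟩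
        · rw [hM.Tr_add, mul_assoc]
        · have h5 := extra_le m (flipN m false 2) f (off M s j + q)
          have h6 : 1 ≤ extra m 2 f q := by
            rcases f with _ | (_ | _) <;> simp only [extra] <;> (try split_ifs) <;> omega
          omega
        · have h5 := nrm_add_le (off M s j) q
          omega
      · rw [if_neg h2, one_mul]
        refine ⟨q, f, n, z, h', rfl, hr, ?_, by omega⟩
        have h5 : flipN m c v ≤ v + 1 ∧ v ≤ flipN m c v + 1 := by
          unfold flipN
          cases c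
          · simp only [Bool.false_eq_true, if_false]
            split_ifs <;> omega
          · simp only [if_true]
            split_ifs <;> omega
        have h6 : extra m (flipN m c v) f q ≤ extra m v f q + 1 := by
          rcases f with _ | (_ | _) <;> simp only [extra] <;> (try split_ifs) <;> omega
        omega

/-- The section of an element at a block letter. -/
theorem rep_section (hM : IsModel Φ x y τ w g) {D : ℕ} (hD : ∀ s j, nrm (off M s j) ≤ D)
    {h : G} {N z : ℕ} (hr : Rep x y τ h N z) (s : M.S) (j : M.J) (v : Fin (2 * m + 1)) (i : M.J) :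
    ∃ (v' : Fin (2 * m + 1)) (i' : M.J), pm Φ h (blk s j v i) = blk s j v' i' ∧
      St m x y τ s j v'.1 (sc Φ h (blk s j v i)) N (z + (2 * D + 4) * (N + 1)) := by
  induction hr with
  | base a z ha =>
    refine ⟨v, sh i a, (hM.Tr_blk a s j v i).1, ?_⟩
    rw [(hM.Tr_blk a s j v i).2]
    have h0 : St m x y τ s j v.1 (1 : G) 0 0 :=
      ⟨0, none, 0, 0, 1, by rw [Tr_zero, mul_one], Red.nil, by simp [extra], by simp [nrm]⟩
    have h1 := hM.St_T h0 (carry2 i a)
    rw [mul_one] at h1
    refine h1.mono le_rfl ?_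
    have h2 := two_nrm_carry2_le hM.hQ i a
    omega
  | cons a c s₀ h N z z' ha _ ih =>
    obtain ⟨v₁, i₁, hp, hs⟩ := ih
    have key : ∃ v₂ : Fin (2 * m + 1), pm Φ (τ c s₀) (blk s j v₁ i₁) = blk s j v₂ i₁ ∧
        St m x y τ s j v₂.1 (sc Φ (τ c s₀) (blk s j v₁ i₁) * sc Φ h (blk s j v i)) (N + 1)
          (z + (2 * D + 4) * (N + 1) + 2 * D) := by
      by_cases hc : s = s₀ ∧ M.halt s = false ∧ i₁ = col M c j
      · obtain ⟨rfl, hh, hi⟩ := hc
        refine ⟨flip c v₁, (hM.τ_active c s j v₁ i₁ hh hi).1, ?_⟩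
        rw [(hM.τ_active c s j v₁ i₁ hh hi).2]
        exact hM.St_τ v₁.2 (hD s j) c hs
      · refine ⟨v₁, (hM.τ_inactive c s₀ s j v₁ i₁ hc).1, ?_⟩
        rw [(hM.τ_inactive c s₀ s j v₁ i₁ hc).2, one_mul]
        exact hs.mono (by omega) (by omega)
    obtain ⟨v₂, hp₂, hs₂⟩ := key
    refine ⟨v₂, sh i₁ a, ?_, ?_⟩
    · rw [pm_mul, pm_mul, hp, hp₂, (hM.Tr_blk a s j v₂ i₁).1]
    · rw [sc_mul, sc_mul, hp, hp₂, (hM.Tr_blk a s j v₂ i₁).2, mul_assoc]
      refine (hM.St_T hs₂ (carry2 i₁ a)).mono le_rfl ?_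
      have h2 := two_nrm_carry2_le hM.hQ i₁ a
      have h3 : (2 * D + 4) * (N + 1 + 1) = (2 * D + 4) * (N + 1) + (2 * D + 4) := by ring
      omega

end IsModel

end Pool.Agent.WreathContraction
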