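import Pool.Agent.Lib.MP_e16db3_al.Equiv

/-!
# The finite data attached to a machine
-/

namespace Pool.Agent.WreathContraction

open IsModel Classical

section Quot

/-! ### Inputs and their quotient groups -/

variable (I : Input)

/-- the group defined by an input -/
abbrev Input.Gr : Type := FreeGroup (Fin I.n) ⧸ ker I.recursion

/-- the image of a word in the group defined by the input -/
def Input.ev (L : List (Fin I.n × Bool)) : I.Gr :=
  QuotientGroup.mk' (ker I.recursion) (FreeGroup.mk L)

/-- the generators of the group defined by the input -/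
def Input.gn (s : Fin I.n) : I.Gr := QuotientGroup.mk' (ker I.recursion) (FreeGroup.of s)

theorem Input.ev_eq (L : List (Fin I.n × Bool)) :
    I.ev L = (L.map fun p => cond p.2 (I.gn p.1) (I.gn p.1)⁻¹).prod := by
  have h : QuotientGroup.mk' (ker I.recursion) = FreeGroup.lift I.gn := by
    apply FreeGroup.ext_hom
    intro s
    rw [FreeGroup.lift_apply_of]
    rfl
  unfold Input.ev
  rw [h, FreeGroup.lift_mk]

theorem Input.induced_gn (s : Fin I.n) :
    induced I.recursion (I.gn s) = ⟨I.perm s, fun x => I.ev (I.word s x)⟩ := by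
  unfold Input.gn
  rw [induced_mk]
  have h : I.recursion (FreeGroup.of s) = ⟨I.perm s, fun x => FreeGroup.mk (I.word s x)⟩ :=
    FreeGroup.lift_apply_of
  rw [h]
  rfl

theorem Input.closure_gn : Subgroup.closure (Set.range I.gn) = ⊤ := by
  have h1 := FreeGroup.closure_range_of (Fin I.n)
  have h2 := MonoidHom.map_closure (QuotientGroup.mk' (ker I.recursion)) (Set.range FreeGroup.of)
  rw [h1, ← MonoidHom.range_eq_map, MonoidHom.range_eq_top.2
    (QuotientGroup.mk'_surjective (ker I.recursion))] at h2
  rw [h2]
  congr 1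
  ext f
  constructor
  · rintro ⟨s, rfl⟩
    exact ⟨_, ⟨s, rfl⟩, rfl⟩
  · rintro ⟨_, ⟨s, rfl⟩, rfl⟩
    exact ⟨s, rfl⟩

end Quot

variable (M : Mach) (m : ℕ)

/-- The generators: `none` is `w`, `some (inl false)` and `some (inl true)` are the odometers
`x` and `y`, and `some (inr (c, s))` are the reflections. -/
abbrev Gn : Type := Option (Bool ⊕ (Bool × M.S))

/-- the unit vectors -/
def unitv (c : Bool) : M.J := if c = true then (0, 1) else (1, 0)

/-- the permutation of an odometer -/
def shiftPerm (c : Bool) : Equiv.Perm (Letter M m) where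
  toFun p := (p.1, p.2.1, p.2.2.1, p.2.2.2 + unitv M c)
  invFun p := (p.1, p.2.1, p.2.2.1, p.2.2.2 - unitv M c)
  left_inv p := by simp
  right_inv p := by simp

/-- the map of a reflection -/
noncomputable def flipFun (c : Bool) (s₀ : M.S) (p : Letter M m) : Letter M m :=
  if p.1 = s₀ ∧ M.halt p.1 = false ∧ p.2.2.2 = col M c p.2.1 then
    (p.1, p.2.1, flip c p.2.2.1, p.2.2.2) else p

theorem flipFun_invol (c : Bool) (s₀ : M.S) : Function.Involutive (flipFun M m c s₀) := by
  rintro ⟨s, j, v, i⟩
  unfold flipFun
  by_cases h : s = s₀ ∧ M.halt s = false ∧ i = col M c j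
  · rw [if_pos h, if_pos h, flip_flip]
  · rw [if_neg h, if_neg h]

/-- the permutation of a reflection -/
noncomputable def flipPerm (c : Bool) (s₀ : M.S) : Equiv.Perm (Letter M m) :=
  (flipFun_invol M m c s₀).toPerm

/-- the permutations of the generators -/
noncomputable def permG : Gn M → Equiv.Perm (Alph M m)
  | none => 1
  | some (Sum.inl c) => Equiv.optionCongr (Equiv.optionCongr (shiftPerm M m c))
  | some (Sum.inr (c, s₀)) => Equiv.optionCongr (Equiv.optionCongr (flipPerm M m c s₀))

/-- word of the translation by a pair of natural numbers -/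
def trW (b : ℕ × ℕ) : List (Gn M × Bool) :=
  List.replicate b.1 (some (Sum.inl false), true) ++
    List.replicate b.2 (some (Sum.inl true), true)

/-- word of the inverse translation -/
def trW' (b : ℕ × ℕ) : List (Gn M × Bool) :=
  List.replicate b.2 (some (Sum.inl true), false) ++
    List.replicate b.1 (some (Sum.inl false), false)

/-- the words of the generators, except for the word of `w` at the letter `none` -/
noncomputable def wordG : Gn M → Alph M m → List (Gn M × Bool)
  | none, some none => [(none, true)]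
  | some (Sum.inl false), some (some (s, j, v, i)) =>
    if mu M false s j v.1 = true ∧ i.1 = -1 then [(some (Sum.inl false), true)] else []
  | some (Sum.inl true), some (some (s, j, v, i)) =>
    if mu M true s j v.1 = true ∧ i.2 = -1 then [(some (Sum.inl true), true)] else []
  | some (Sum.inr (c, s₀)), some (some (s, j, v, i)) =>
    if s = s₀ ∧ M.halt s = false ∧ i = col M c j then
      (if v.1 = endp m c then [(some (Sum.inr (c, M.next s j)), true)]
        else if c = false ∧ v.1 = 1 then trW' M (M.B s j)
        else if c = false ∧ v.1 = 2 then trW M (M.B s j)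
        else [])
    else []
  | _, _ => []

variable {M m}

/-- The input `I` is a numbering of the data above, with the word `W` for `w` at the letter
`none`. -/
structure Fits (I : Input) (eG : Gn M ≃ Fin I.n) (eA : Alph M m ≃ Fin I.d)
    (W : List (Fin I.n × Bool)) : Prop where
  perm_eq : ∀ s ζ, I.perm (eG s) (eA ζ) = eA (permG M m s ζ)
  word_none : I.word (eG none) (eA none) = W
  word_eq : ∀ s ζ, ¬ (s = none ∧ ζ = none) →
    I.word (eG s) (eA ζ) = (wordG M m s ζ).map fun p => (eG p.1, p.2)

variable {I : Input} {eG : Gn M ≃ Fin I.n} {eA : Alph M m ≃ Fin I.d} {W : List (Fin I.n × Bool)}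

/-- the transported recursion -/
noncomputable def psi (I : Input) (eA : Alph M m ≃ Fin I.d) : I.Gr →* Wr (Alph M m) I.Gr :=
  (Wr.congr eA.symm).comp (induced I.recursion)

theorem pm_psi (F : Fits I eG eA W) (s : Gn M) (ζ : Alph M m) :
    pm (psi I eA) (I.gn (eG s)) ζ = permG M m s ζ := by
  have h := pm_congr (induced I.recursion) eA.symm (I.gn (eG s)) (eA ζ)
  rw [Equiv.symm_apply_apply] at h
  unfold psi
  rw [h]
  have h2 : pm (induced I.recursion) (I.gn (eG s)) (eA ζ) = I.perm (eG s) (eA ζ) := by
    unfold pm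
    rw [Input.induced_gn]
  rw [h2, F.perm_eq, Equiv.symm_apply_apply]

theorem sc_psi (s : Gn M) (ζ : Alph M m) :
    sc (psi I eA) (I.gn (eG s)) ζ = I.ev (I.word (eG s) (eA ζ)) := by
  have h := sc_congr (induced I.recursion) eA.symm (I.gn (eG s)) (eA ζ)
  rw [Equiv.symm_apply_apply] at h
  unfold psi
  rw [h]
  unfold sc
  rw [Input.induced_gn]

theorem sc_psi_none (F : Fits I eG eA W) :
    sc (psi I eA) (I.gn (eG none)) none = I.ev W := by
  rw [sc_psi, F.word_none]

theorem sc_psi' (F : Fits I eG eA W) (s : Gn M) (ζ : Alph M m) (h : ¬ (s = none ∧ ζ = none)) :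
    sc (psi I eA) (I.gn (eG s)) ζ =
      ((wordG M m s ζ).map fun p => cond p.2 (I.gn (eG p.1)) (I.gn (eG p.1))⁻¹).prod := by
  rw [sc_psi, F.word_eq s ζ h, Input.ev_eq, List.map_map]
  rfl

/-- evaluation of words in the group -/
noncomputable def evG (I : Input) (eG : Gn M ≃ Fin I.n) (L : List (Gn M × Bool)) : I.Gr :=
  (L.map fun p => cond p.2 (I.gn (eG p.1)) (I.gn (eG p.1))⁻¹).prod

theorem ev_trW (b : ℕ × ℕ) : evG I eG (trW M b) =
    I.gn (eG (some (Sum.inl false))) ^ b.1 * I.gn (eG (some (Sum.inl true))) ^ b.2 := by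
  simp [evG, trW]

theorem ev_trW' (b : ℕ × ℕ) : evG I eG (trW' M b) =
    (I.gn (eG (some (Sum.inl false))) ^ b.1 * I.gn (eG (some (Sum.inl true))) ^ b.2)⁻¹ := by
  simp [evG, trW']

theorem ev_nil : evG I eG [] = 1 := by
  simp [evG]

theorem ev_one (s : Gn M) : evG I eG [(s, true)] = I.gn (eG s) := by
  simp [evG]

theorem isModel (F : Fits I eG eA W) (hQ : 2 ≤ M.Q)
    (hm : ∀ s j, (M.A s j).1 + (M.A s j).2 + 2 ≤ m) :
    IsModel (psi I eA) (I.gn (eG (some (Sum.inl false)))) (I.gn (eG (some (Sum.inl true))))
      (fun c s => I.gn (eG (some (Sum.inr (c, s))))) (I.gn (eG none)) (I.ev W) where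
  hQ := hQ
  hm := hm
  faithful := faithful_congr _ _ (induced_faithful _)
  x_pm s j v i := by
    rw [pm_psi F]
    simp [permG, blk, shiftPerm, unitv, Prod.ext_iff]
  x_sc s j v i := by
    rw [sc_psi' F _ _ (by simp)]
    simp only [blk, wordG]
    split_ifs
    · exact ev_one _
    · exact ev_nil
  y_pm s j v i := by
    rw [pm_psi F]
    simp [permG, blk, shiftPerm, unitv, Prod.ext_iff]
  y_sc s j v i := by
    rw [sc_psi' F _ _ (by simp)]
    simp only [blk, wordG]
    split_ifs
    · exact ev_one _
    · exact ev_nil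
  τ_pm c s₀ s j v i := by
    rw [pm_psi F]
    simp only [permG, blk, Equiv.optionCongr_apply, Option.map_some, flipPerm,
      Function.Involutive.coe_toPerm, flipFun]
    split_ifs <;> rfl
  τ_sc c s₀ s j v i := by
    rw [sc_psi' F _ _ (by simp)]
    simp only [blk, wordG]
    split_ifs
    · exact ev_one _
    · exact ev_trW' _
    · exact ev_trW _
    · exact ev_nil
    · exact ev_nil
  x_none := by rw [pm_psi F]; rfl
  x_none' := by rw [sc_psi' F _ _ (by simp)]; exact ev_nil
  x_some := by rw [pm_psi F]; rfl
  x_some' := by rw [sc_psi' F _ _ (by simp)]; exact ev_nil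
  y_none := by rw [pm_psi F]; rfl
  y_none' := by rw [sc_psi' F _ _ (by simp)]; exact ev_nil
  y_some := by rw [pm_psi F]; rfl
  y_some' := by rw [sc_psi' F _ _ (by simp)]; exact ev_nil
  τ_none c s := by rw [pm_psi F]; rfl
  τ_none' c s := by rw [sc_psi' F _ _ (by simp)]; exact ev_nil
  τ_some c s := by rw [pm_psi F]; rfl
  τ_some' c s := by rw [sc_psi' F _ _ (by simp)]; exact ev_nil
  w_pm ζ := by rw [pm_psi F]; rfl
  w_none := sc_psi_none F
  w_some := by rw [sc_psi' F _ _ (by simp)]; exact ev_one _
  w_blk p := by rw [sc_psi' F _ _ (by simp)]; exact ev_nil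

theorem closure_gens :
    Subgroup.closure (gens (I.gn (eG (some (Sum.inl false)))) (I.gn (eG (some (Sum.inl true))))
      (I.gn (eG none)) (fun c s => I.gn (eG (some (Sum.inr (c, s)))))) = ⊤ := by
  rw [← I.closure_gn]
  congr 1
  ext f
  unfold gens
  constructor
  · rintro ((rfl | rfl | rfl) | ⟨⟨c, s⟩, rfl⟩)
    · exact ⟨_, rfl⟩
    · exact ⟨_, rfl⟩
    · exact ⟨_, rfl⟩
    · exact ⟨_, rfl⟩
  · rintro ⟨s, rfl⟩
    obtain ⟨s', rfl⟩ := eG.surjective s
    rcases s' with _ | (_ | _) | ⟨c, s⟩
    · exact Or.inl (Or.inr (Or.inr rfl))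
    · exact Or.inl (Or.inl rfl)
    · exact Or.inl (Or.inr (Or.inl rfl))
    · exact Or.inr ⟨(c, s), rfl⟩

variable (M) in
/-- the word of the configuration element of the configuration `(s, 0, b)` -/
def confW (s : M.S) (b : ℕ) : List (Gn M × Bool) :=
  (some (Sum.inr (false, s)), true) :: (List.replicate b (some (Sum.inl true), true) ++
    (some (Sum.inr (true, s)), true) :: List.replicate b (some (Sum.inl true), false))

theorem defines_iff [Finite M.S] (hQ : 2 ≤ M.Q)
    (hm : ∀ s j, (M.A s j).1 + (M.A s j).2 + 2 ≤ m) (s : M.S) (b : ℕ)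
    (hW : W = (confW M s b).map fun p => (eG p.1, p.2)) (F : Fits I eG eA W) :
    I.DefinesContracting ↔ M.Halts (s, 0, b) := by
  have h := contracting_iff (isModel F hQ hm) closure_gens s (0, b) (by
    rw [hW, Input.ev_eq, List.map_map]
    simp [confW, conf, refl', Tr, vec, mul_assoc])
  rw [← h]
  unfold psi
  rw [contracting_congr]
  rfl

/-! ### The actual numbering -/

variable (M m) [Fintype M.S] [NeZero M.Q]

/-- number of generators other than `w` -/
noncomputable abbrev nG : ℕ := Fintype.card (Bool ⊕ (Bool × M.S))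

/-- number of letters other than `none` -/
noncomputable abbrev dA : ℕ := Fintype.card (Option (Letter M m))

omit [NeZero M.Q] in
/-- numbering of the generators -/
noncomputable def numG : Gn M ≃ Fin (nG M + 1) :=
  (Equiv.optionCongr (Fintype.equivFin _)).trans (finSuccEquiv (nG M)).symm

/-- numbering of the letters -/
noncomputable def numA : Alph M m ≃ Fin (dA M m + 1) :=
  (Equiv.optionCongr (Fintype.equivFin _)).trans (finSuccEquiv (dA M m)).symm

omit [NeZero M.Q] in
theorem numG_none : numG M none = 0 := by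
  simp [numG]

theorem numA_none : numA M m none = 0 := by
  simp [numA]

/-- the input with the word `W` for `w` at the letter `none` -/
noncomputable def inp (W : List (Fin (nG M + 1) × Bool)) : Input where
  d := dA M m + 1
  two_le := by
    have h : dA M m = Fintype.card (Letter M m) + 1 := Fintype.card_option
    omega
  n := nG M + 1
  perm s := ((numA M m).symm.trans (permG M m ((numG M).symm s))).trans (numA M m)
  word s x := if s = 0 ∧ x = 0 then W else
    (wordG M m ((numG M).symm s) ((numA M m).symm x)).map fun p => (numG M p.1, p.2)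

theorem fits (W : List (Fin (nG M + 1) × Bool)) :
    Fits (inp M m W) (numG M) (numA M m) W where
  perm_eq s ζ := by
    change numA M m (permG M m ((numG M).symm (numG M s)) ((numA M m).symm (numA M m ζ))) = _
    rw [Equiv.symm_apply_apply, Equiv.symm_apply_apply]
    rfl
  word_none := by
    change (if numG M none = 0 ∧ numA M m none = 0 then W else
      (wordG M m ((numG M).symm (numG M none)) ((numA M m).symm (numA M m none))).map
        fun p => (numG M p.1, p.2)) = _
    exact if_pos ⟨numG_none M, numA_none M m⟩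
  word_eq s ζ h := by
    have h' : ¬ (numG M s = 0 ∧ numA M m ζ = 0) := by
      rintro ⟨h1, h2⟩
      apply h
      rw [← numG_none M] at h1
      rw [← numA_none M m] at h2
      exact ⟨(numG M).injective h1, (numA M m).injective h2⟩
    change (if numG M s = 0 ∧ numA M m ζ = 0 then W else
      (wordG M m ((numG M).symm (numG M s)) ((numA M m).symm (numA M m ζ))).map
        fun p => (numG M p.1, p.2)) = _
    rw [if_neg h', Equiv.symm_apply_apply, Equiv.symm_apply_apply]
    rfl

theorem inp_defines_iff (hQ : 2 ≤ M.Q) (hm : ∀ s j, (M.A s j).1 + (M.A s j).2 + 2 ≤ m)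
    (s : M.S) (b : ℕ) :
    (inp M m ((confW M s b).map fun p => (numG M p.1, p.2))).DefinesContracting ↔
      M.Halts (s, 0, b) :=
  defines_iff hQ hm s b rfl (fits M m _)

end Pool.Agent.WreathContraction
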