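import Mathlib

/-!
# Wreath recursions, the group they define, contraction, and inputs given by finite data
-/

namespace Pool.Agent.WreathContraction

/-- The permutational wreath product `S_X ≀ G = S_X ⋉ G^X`. The pair with components `perm = π`
and `sec = (g_x)_x` is the element `π (g_x)_x`. -/
@[ext]
structure Wr (X G : Type) where
  /-- the permutation part `π` -/
  perm : Equiv.Perm X
  /-- the tuple `(g_x)_x` -/
  sec : X → G

namespace Wr

variable {X G : Type} [Group G]

/-- The product is `π (g_x)_x · σ (h_x)_x = π σ (g_{σ(x)} h_x)_x`. -/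
instance : Mul (Wr X G) := ⟨fun a b => ⟨a.perm * b.perm, fun x => a.sec (b.perm x) * b.sec x⟩⟩

instance : One (Wr X G) := ⟨⟨1, fun _ => 1⟩⟩

instance : Inv (Wr X G) := ⟨fun a => ⟨a.perm⁻¹, fun x => (a.sec (a.perm⁻¹ x))⁻¹⟩⟩

instance : Group (Wr X G) where
  mul_assoc a b c := by
    apply Wr.ext
    · exact mul_assoc a.perm b.perm c.perm
    · funext x
      exact mul_assoc (a.sec (b.perm (c.perm x))) (b.sec (c.perm x)) (c.sec x)
  one_mul a := by
    apply Wr.ext
    · exact one_mul a.perm
    · funext x
      exact one_mul (a.sec x)
  mul_one a := by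
    apply Wr.ext
    · exact mul_one a.perm
    · funext x
      exact mul_one (a.sec x)
  inv_mul_cancel a := by
    apply Wr.ext
    · exact inv_mul_cancel a.perm
    · funext x
      have h : a.perm⁻¹ (a.perm x) = x := a.perm.symm_apply_apply x
      change (a.sec (a.perm⁻¹ (a.perm x)))⁻¹ * a.sec x = 1
      rw [h, inv_mul_cancel]

end Wr

variable {X G : Type} [Group G]

/-- The section `g|_v` for the wreath recursion `Φ`: `g|_∅ = g`, and `g|_{vx}` is the entry at `x`
of the tuple of `Φ (g|_v)`. -/
def sectionAt (Φ : G →* Wr X G) (g : G) (v : List X) : G :=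
  v.foldl (fun h x => (Φ h).sec x) g

/-- The action on words: `g(∅) = ∅` and `g(xw) = π(x) g|_x(w)`, where `π` is the permutation part
of `Φ g`. -/
def act (Φ : G →* Wr X G) : G → List X → List X
  | _, [] => []
  | g, x :: w => (Φ g).perm x :: act Φ ((Φ g).sec x) w

theorem act_one (Φ : G →* Wr X G) (w : List X) : act Φ 1 w = w := by
  induction w with
  | nil => rfl
  | cons x w ih =>
    have h : Φ 1 = 1 := map_one Φ
    change (Φ 1).perm x :: act Φ ((Φ 1).sec x) w = x :: w
    rw [h]
    change x :: act Φ 1 w = x :: w
    rw [ih]

theorem act_mul (Φ : G →* Wr X G) (g h : G) (w : List X) :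
    act Φ (g * h) w = act Φ g (act Φ h w) := by
  induction w generalizing g h with
  | nil => rfl
  | cons x w ih =>
    have e : Φ (g * h) = Φ g * Φ h := map_mul Φ g h
    change (Φ (g * h)).perm x :: act Φ ((Φ (g * h)).sec x) w
      = (Φ g).perm ((Φ h).perm x) :: act Φ ((Φ g).sec ((Φ h).perm x)) (act Φ ((Φ h).sec x) w)
    rw [e, ← ih]
    rfl

/-- The kernel `K_Φ` of the action on words. -/
def ker (Φ : G →* Wr X G) : Subgroup G where
  carrier := {g | ∀ w, act Φ g w = w}
  one_mem' := act_one Φ
  mul_mem' {g h} hg hh w := by rw [act_mul, hh, hg]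
  inv_mem' {g} hg w := by
    have h := act_mul Φ g⁻¹ g w
    rw [inv_mul_cancel, act_one, hg] at h
    exact h.symm

instance (Φ : G →* Wr X G) : (ker Φ).Normal where
  conj_mem g hg h w := by
    rw [act_mul, act_mul, hg, ← act_mul, mul_inv_cancel, act_one]

theorem perm_of_mem_ker (Φ : G →* Wr X G) {g : G} (hg : g ∈ ker Φ) : (Φ g).perm = 1 := by
  ext x
  have h := hg [x]
  exact (List.cons.inj h).1

theorem sec_of_mem_ker (Φ : G →* Wr X G) {g : G} (hg : g ∈ ker Φ) (x : X) :
    (Φ g).sec x ∈ ker Φ := by
  intro w
  have h := hg (x :: w)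
  exact (List.cons.inj h).2

/-- The map of wreath products induced by a group homomorphism. -/
def Wr.map {H : Type} [Group H] (f : G →* H) : Wr X G →* Wr X H where
  toFun a := ⟨a.perm, fun x => f (a.sec x)⟩
  map_one' := by
    apply Wr.ext
    · rfl
    · funext x
      exact map_one f
  map_mul' a b := by
    apply Wr.ext
    · rfl
    · funext x
      exact map_mul f _ _

/-- The recursion induced by `Φ` on the quotient `G / K_Φ`, the group defined by `Φ`. -/
def induced (Φ : G →* Wr X G) : G ⧸ ker Φ →* Wr X (G ⧸ ker Φ) :=
  QuotientGroup.lift (ker Φ) ((Wr.map (QuotientGroup.mk' (ker Φ))).comp Φ) (by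
    intro g hg
    apply Wr.ext
    · exact perm_of_mem_ker Φ hg
    · funext x
      exact (QuotientGroup.eq_one_iff _).2 (sec_of_mem_ker Φ hg x))

/-- A wreath recursion on `G` is contracting if there is a finite set `N ⊆ G` such that for every
`g` there is `n` with `g|_v ∈ N` for all words `v` of length at least `n`. -/
def Contracting (Φ : G →* Wr X G) : Prop :=
  ∃ N : Set G, N.Finite ∧ ∀ g : G, ∃ n : ℕ, ∀ v : List X, n ≤ v.length → sectionAt Φ g v ∈ N

/-- The finite data of a wreath recursion: the alphabet is `{0, …, d - 1}` with `d ≥ 2`, the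
generators are `{0, …, n - 1}`, and each generator `s` comes with a permutation `perm s` and with
`d` words `word s x`. In a word the letter `(t, true)` stands for `t` and `(t, false)` for its
inverse. -/
structure Input where
  /-- number of letters of the alphabet -/
  d : ℕ
  /-- there are at least two letters -/
  two_le : 2 ≤ d
  /-- number of generators -/
  n : ℕ
  /-- the permutation of each generator -/
  perm : Fin n → Equiv.Perm (Fin d)
  /-- the words of each generator -/
  word : Fin n → Fin d → List (Fin n × Bool)

/-- The wreath recursion on the free group determined by the data: the homomorphism with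
`Φ(s) = π_s (w_{s,1}, …, w_{s,d})`. -/
def Input.recursion (I : Input) :
    FreeGroup (Fin I.n) →* Wr (Fin I.d) (FreeGroup (Fin I.n)) :=
  FreeGroup.lift fun s => ⟨I.perm s, fun x => FreeGroup.mk (I.word s x)⟩

/-- The group defined by the recursion is contracting. -/
def Input.DefinesContracting (I : Input) : Prop :=
  Contracting (induced I.recursion)

/-- Codes of inputs: the number `d` and, for each generator, the list of the values of its
permutation and the list of its words. -/
abbrev Code : Type := ℕ × List (List ℕ × List (List (ℕ × Bool)))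

/-- The code of an input: all its data written as one tuple of lists of natural numbers. -/
def Input.code (I : Input) : Code :=
  (I.d, List.ofFn fun s : Fin I.n =>
    (List.ofFn fun x : Fin I.d => (I.perm s x : ℕ),
     List.ofFn fun x : Fin I.d => (I.word s x).map fun p => ((p.1 : ℕ), p.2)))

end Pool.Agent.WreathContraction
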