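import Pool.Agent.Lib.MP_e16db3_al.Order

/-!
# The group of the model is contracting iff the machine halts
-/

namespace Pool.Agent.WreathContraction

open IsModel

theorem finite_nrm_le (Z : ℕ) : {a : ℤ × ℤ | nrm a ≤ Z}.Finite := by
  refine Set.Finite.subset ((Set.finite_Icc (-(Z : ℤ)) Z).prod (Set.finite_Icc (-(Z : ℤ)) Z)) ?_
  intro a ha
  simp only [nrm, Set.mem_ofPred_eq] at ha
  simp only [Set.mem_prod, Set.mem_Icc]
  omega

section RepLemmas

variable {G : Type} [Group G] {S : Type}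

theorem rep_finite (x y : G) (τ : Bool → S → G) [Finite S] (Z : ℕ) (N : ℕ) :
    {h : G | ∃ z, z ≤ Z ∧ Rep x y τ h N z}.Finite := by
  induction N with
  | zero =>
    refine Set.Finite.subset ((finite_nrm_le Z).image (Tr x y)) ?_
    rintro h ⟨z, hz, hr⟩
    cases hr with
    | base a _ ha => exact ⟨a, le_trans ha hz, rfl⟩
  | succ N ih =>
    have hfin : ((finite_nrm_le Z).toFinset : Set (ℤ × ℤ)).Finite := Finset.finite_toSet _
    refine Set.Finite.subset (Set.Finite.image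
      (fun p : (ℤ × ℤ) × (Bool × S) × G => Tr x y p.1 * τ p.2.1.1 p.2.1.2 * p.2.2)
      ((finite_nrm_le Z).prod ((Set.finite_univ (α := Bool × S)).prod ih))) ?_
    rintro h ⟨z, hz, hr⟩
    cases hr with
    | cons a c s g' _ z₁ z₂ ha hr' =>
      refine ⟨(a, (c, s), g'), ⟨?_, Set.mem_univ _, ?_⟩, rfl⟩
      · change nrm a ≤ Z
        omega
      · exact ⟨z₁, by omega, hr'⟩

theorem rep_finite' (x y : G) (τ : Bool → S → G) [Finite S] (R : ℕ) :
    {h : G | ∃ N z, N ≤ R ∧ z ≤ R ∧ Rep x y τ h N z}.Finite := by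
  refine Set.Finite.subset (Set.Finite.biUnion (Set.finite_Iic R)
    (fun N _ => rep_finite x y τ R N)) ?_
  rintro h ⟨N, z, hN, hz, hr⟩
  simp only [Set.mem_iUnion]
  exact ⟨N, hN, z, hz, hr⟩

end RepLemmas

variable {M : Mach} {G : Type} [Group G]

namespace IsModel

variable {m : ℕ} {Φ : G →* Wr (Alph M m) G} {x y : G} {τ : Bool → M.S → G} {w g : G}

theorem rep_tr_mul (hM : IsModel Φ x y τ w g) {a : ℤ × ℤ} {z : ℕ} (ha : nrm a ≤ z) {h : G}
    {N z' : ℕ} (hr : Rep x y τ h N z') : Rep x y τ (Tr x y a * h) N (z' + z) := by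
  cases hr with
  | base b _ hb =>
    rw [← hM.Tr_add]
    refine Rep.base _ _ ?_
    have := nrm_add_le a b
    omega
  | cons b c s h' N' z₁ z₂ hb hr' =>
    have e : Tr x y a * (Tr x y b * τ c s * h') = Tr x y (a + b) * τ c s * h' := by
      rw [hM.Tr_add]
      group
    rw [e, add_assoc]
    refine Rep.cons _ c s h' N' z₁ _ ?_ hr'
    have := nrm_add_le a b
    omega

theorem rep_mul (hM : IsModel Φ x y τ w g) {h h' : G} {N N' z z' : ℕ} (hr : Rep x y τ h N z)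
    (hr' : Rep x y τ h' N' z') : Rep x y τ (h * h') (N + N') (z + z') := by
  induction hr with
  | base a z ha =>
    rw [zero_add, add_comm z z']
    exact hM.rep_tr_mul ha hr'
  | cons a c s h₁ N₁ z₁ z₂ ha _ ih =>
    have e : Tr x y a * τ c s * h₁ * h' = Tr x y a * τ c s * (h₁ * h') := by group
    rw [e, show N₁ + 1 + N' = (N₁ + N') + 1 by omega,
      show z₁ + z₂ + z' = (z₁ + z') + z₂ by omega]
    exact Rep.cons a c s _ _ _ _ ha ih

theorem rep_one : Rep x y τ (1 : G) 0 0 := by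
  have h := Rep.base (x := x) (y := y) (τ := τ) 0 0 le_rfl
  rwa [Tr_zero] at h

theorem rep_conf (s : M.S) (a : ℤ × ℤ) :
    Rep x y τ (conf x y τ s a) 2 (nrm a + nrm a) := by
  have h1 : Rep x y τ (Tr x y (-a)) 0 (nrm a) := Rep.base _ _ (by rw [nrm_neg])
  have h2 := Rep.cons a true s _ _ _ (nrm a) le_rfl h1
  have h3 := Rep.cons 0 false s _ _ _ 0 le_rfl h2
  rw [Tr_zero, one_mul] at h3
  exact h3

theorem rep_pow (hM : IsModel Φ x y τ w g) {h : G} (hr : ∃ N z, Rep x y τ h N z) (k : ℕ) :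
    ∃ N z, Rep x y τ (h ^ k) N z := by
  induction k with
  | zero => exact ⟨0, 0, by rw [pow_zero]; exact rep_one⟩
  | succ k ih =>
    obtain ⟨N, z, h1⟩ := ih
    obtain ⟨N', z', h2⟩ := hr
    exact ⟨_, _, by rw [pow_succ]; exact hM.rep_mul h1 h2⟩

theorem rep_fix (hM : IsModel Φ x y τ w g) {h : G} {N z : ℕ} (hr : Rep x y τ h N z) :
    (pm Φ h none = none ∧ sc Φ h none = 1) ∧
      (pm Φ h (some none) = some none ∧ sc Φ h (some none) = 1) := by
  induction hr with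
  | base a z _ => exact ⟨hM.Tr_none a, hM.Tr_some a⟩
  | cons a c s h₁ N₁ z₁ z₂ _ _ ih =>
    obtain ⟨⟨i1, i2⟩, i3, i4⟩ := ih
    refine ⟨⟨?_, ?_⟩, ?_, ?_⟩
    · rw [pm_mul, pm_mul, i1, hM.τ_none, (hM.Tr_none a).1]
    · rw [sc_mul, sc_mul, i1, i2, hM.τ_none, hM.τ_none', (hM.Tr_none a).2]
      simp
    · rw [pm_mul, pm_mul, i3, hM.τ_some, (hM.Tr_some a).1]
    · rw [sc_mul, sc_mul, i3, i4, hM.τ_some, hM.τ_some', (hM.Tr_some a).2]
      simp

theorem comm_w (hM : IsModel Φ x y τ w g) {h : G}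
    (h0 : pm Φ h none = none ∧ sc Φ h none = 1)
    (h1 : pm Φ h (some none) = some none ∧ sc Φ h (some none) = 1)
    (h2 : ∀ p, ∃ p', pm Φ h (some (some p)) = some (some p')) : w * h = h * w := by
  apply hM.faithful.ext
  · intro ζ
    rw [pm_mul, pm_mul, hM.w_pm, hM.w_pm]
  · rintro (_ | _ | p)
    · rw [sc_mul, sc_mul, hM.w_pm, h0.1, h0.2, mul_one, one_mul]
    · rw [sc_mul, sc_mul, hM.w_pm, h1.1, h1.2, mul_one, one_mul]
    · obtain ⟨p', hp'⟩ := h2 p
      rw [sc_mul, sc_mul, hM.w_pm, hp', hM.w_blk, hM.w_blk, one_mul, mul_one]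

theorem comm_w_x (hM : IsModel Φ x y τ w g) : w * x = x * w :=
  hM.comm_w ⟨hM.x_none, hM.x_none'⟩ ⟨hM.x_some, hM.x_some'⟩
    (fun ⟨s, j, v, i⟩ => ⟨_, hM.x_pm s j v i⟩)

theorem comm_w_y (hM : IsModel Φ x y τ w g) : w * y = y * w :=
  hM.comm_w ⟨hM.y_none, hM.y_none'⟩ ⟨hM.y_some, hM.y_some'⟩
    (fun ⟨s, j, v, i⟩ => ⟨_, hM.y_pm s j v i⟩)

theorem comm_w_τ (hM : IsModel Φ x y τ w g) (c : Bool) (s : M.S) : w * τ c s = τ c s * w := by
  refine hM.comm_w ⟨hM.τ_none c s, hM.τ_none' c s⟩ ⟨hM.τ_some c s, hM.τ_some' c s⟩ ?_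
  rintro ⟨s', j, v, i⟩
  by_cases h : s' = s ∧ M.halt s' = false ∧ i = col M c j
  · obtain ⟨rfl, hh, hi⟩ := h
    exact ⟨_, (hM.τ_active c s' j v i hh hi).1⟩
  · exact ⟨_, (hM.τ_inactive c s s' j v i h).1⟩

theorem comm_w_rep (hM : IsModel Φ x y τ w g) {h : G} {N z : ℕ} (hr : Rep x y τ h N z) :
    Commute w h := by
  have hx : Commute w x := hM.comm_w_x
  have hy : Commute w y := hM.comm_w_y
  have hT : ∀ a, Commute w (Tr x y a) := fun a =>
    (hx.zpow_right a.1).mul_right (hy.zpow_right a.2)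
  induction hr with
  | base a z _ => exact hT a
  | cons a c s h₁ N₁ z₁ z₂ _ _ ih =>
    exact ((hT a).mul_right (hM.comm_w_τ c s)).mul_right ih

theorem w_pow_none (hM : IsModel Φ x y τ w g) (k : ℕ) : sc Φ (w ^ k) none = g ^ k := by
  rw [(pow_fixed (hM.w_pm none) k).2, hM.w_none]

theorem w_pow_some (hM : IsModel Φ x y τ w g) (k : ℕ) : sc Φ (w ^ k) (some none) = w ^ k := by
  rw [(pow_fixed (hM.w_pm (some none)) k).2, hM.w_some]

theorem w_pow_blk (hM : IsModel Φ x y τ w g) (k : ℕ) (p : Letter M m) :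
    sc Φ (w ^ k) (some (some p)) = 1 := by
  rw [(pow_fixed (hM.w_pm (some (some p))) k).2, hM.w_blk, one_pow]

theorem w_pow_pm (hM : IsModel Φ x y τ w g) (k : ℕ) (ζ : Alph M m) : pm Φ (w ^ k) ζ = ζ :=
  (pow_fixed (hM.w_pm ζ) k).1

theorem w_pow_eq_one (hM : IsModel Φ x y τ w g) {r : ℕ} (hr : g ^ r = 1) : w ^ r = 1 := by
  refine hM.faithful.coind {w ^ r, 1} ?_ _ (Or.inl rfl)
  rintro z (rfl | rfl)
  · refine ⟨hM.w_pow_pm r, ?_⟩
    rintro (_ | _ | p)
    · right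
      rw [hM.w_pow_none, hr]
      rfl
    · left
      exact hM.w_pow_some r
    · right
      exact hM.w_pow_blk r p
  · exact ⟨pm_one Φ, fun ζ => Or.inr (sc_one Φ ζ)⟩

/-- generators -/
def gens (x y w : G) (τ : Bool → M.S → G) : Set G :=
  {x, y, w} ∪ Set.range fun p : Bool × M.S => τ p.1 p.2

theorem exists_rep (hM : IsModel Φ x y τ w g) (hgen : Subgroup.closure (gens x y w τ) = ⊤)
    (f : G) : ∃ (h : G) (N z : ℕ) (k : ℤ), Rep x y τ h N z ∧ f = h * w ^ k := by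
  have hf : f ∈ Subgroup.closure (gens x y w τ) := by rw [hgen]; trivial
  have hxT : ∀ n : ℤ, x ^ n = Tr x y (n, 0) := fun n => by simp [Tr]
  have hyT : ∀ n : ℤ, y ^ n = Tr x y (0, n) := fun n => by simp [Tr]
  have mulT : ∀ (a : ℤ × ℤ) (f : G),
      (∃ (h : G) (N z : ℕ) (k : ℤ), Rep x y τ h N z ∧ f = h * w ^ k) →
      (∃ (h : G) (N z : ℕ) (k : ℤ), Rep x y τ h N z ∧ Tr x y a * f = h * w ^ k) := by
    rintro a f ⟨h, N, z, k, hr, rfl⟩
    exact ⟨_, _, _, k, hM.rep_tr_mul le_rfl hr, by rw [mul_assoc]⟩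
  have mulτ : ∀ (c : Bool) (s : M.S) (f : G),
      (∃ (h : G) (N z : ℕ) (k : ℤ), Rep x y τ h N z ∧ f = h * w ^ k) →
      (∃ (h : G) (N z : ℕ) (k : ℤ), Rep x y τ h N z ∧ τ c s * f = h * w ^ k) := by
    rintro c s f ⟨h, N, z, k, hr, rfl⟩
    refine ⟨_, _, _, k, Rep.cons 0 c s h N z 0 le_rfl hr, ?_⟩
    rw [Tr_zero, one_mul, mul_assoc]
  have mulw : ∀ (n : ℤ) (f : G),
      (∃ (h : G) (N z : ℕ) (k : ℤ), Rep x y τ h N z ∧ f = h * w ^ k) →
      (∃ (h : G) (N z : ℕ) (k : ℤ), Rep x y τ h N z ∧ w ^ n * f = h * w ^ k) := by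
    rintro n f ⟨h, N, z, k, hr, rfl⟩
    refine ⟨h, N, z, n + k, hr, ?_⟩
    rw [← mul_assoc, ((hM.comm_w_rep hr).zpow_left n).eq, mul_assoc, zpow_add]
  induction hf using Subgroup.closure_induction_left with
  | one => exact ⟨1, 0, 0, 0, rep_one, by simp⟩
  | mul_left u hu f' _ ih =>
    rcases hu with (rfl | rfl | rfl) | ⟨⟨c, s⟩, rfl⟩
    · have := mulT (1, 0) f' ih
      rwa [← hxT, zpow_one] at this
    · have := mulT (0, 1) f' ih
      rwa [← hyT, zpow_one] at this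
    · have := mulw 1 f' ih
      rwa [zpow_one] at this
    · exact mulτ c s f' ih
  | inv_mul_cancel u hu f' _ ih =>
    rcases hu with (rfl | rfl | rfl) | ⟨⟨c, s⟩, rfl⟩
    · have := mulT (-1, 0) f' ih
      rwa [← hxT, zpow_neg_one] at this
    · have := mulT (0, -1) f' ih
      rwa [← hyT, zpow_neg_one] at this
    · have := mulw (-1) f' ih
      rwa [zpow_neg_one] at this
    · change ∃ (h : G) (N z : ℕ) (k : ℤ), Rep x y τ h N z ∧ (τ c s)⁻¹ * f' = h * w ^ k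
      rw [hM.τ_inv]
      exact mulτ c s f' ih

theorem contracting_of_finite_order [Finite M.S] (hM : IsModel Φ x y τ w g)
    (hgen : Subgroup.closure (gens x y w τ) = ⊤) (hg : ∃ N z, Rep x y τ g N z)
    {r : ℕ} (hr0 : r ≠ 0) (hr : g ^ r = 1) : Contracting Φ := by
  classical
  have hQ := hM.hQ
  have : NeZero M.Q := ⟨by omega⟩
  have hw := hM.w_pow_eq_one hr
  obtain ⟨D, hD⟩ : ∃ D, ∀ s j, nrm (off M s j) ≤ D := by
    have hfin : (Set.range fun p : M.S × M.J => nrm (off M p.1 p.2)).Finite :=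
      Set.finite_range _
    obtain ⟨D, hD⟩ := hfin.bddAbove
    exact ⟨D, fun s j => hD ⟨(s, j), rfl⟩⟩
  set C := 2 * D + 4 with hC
  obtain ⟨R, hR⟩ : ∃ R, ∀ k < r, ∃ N z, Rep x y τ (g ^ k) N z ∧ 2 * C * N + z ≤ R := by
    choose N z h using hM.rep_pow hg
    refine ⟨(Finset.range r).sup fun k => 2 * C * N k + z k, fun k hk => ⟨N k, z k, h k, ?_⟩⟩
    exact Finset.le_sup (f := fun k => 2 * C * N k + z k) (Finset.mem_range.2 hk)
  set M₀ := max R (5 * C + 3) with hM₀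
  refine contracting_of_norm Φ (fun f L => ∃ (h : G) (N z k : ℕ), Rep x y τ h N z ∧
    2 * C * N + z ≤ L ∧ k < r ∧ f = h * w ^ k) M₀ ?_ ?_ ?_ ?_
  · refine Set.Finite.subset (Set.Finite.image (fun p : G × ℕ => p.1 * w ^ p.2)
      ((rep_finite' x y τ M₀).prod (Set.finite_Iio r))) ?_
    rintro f ⟨h, N, z, k, h1, h2, h3, rfl⟩
    refine ⟨(h, k), ⟨⟨N, z, ?_, ?_, h1⟩, h3⟩, rfl⟩
    · have : N ≤ 2 * C * N := Nat.le_mul_of_pos_left N (by omega)
      omega
    · omega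
  · rintro f L L' hL ⟨h, N, z, k, h1, h2, h3, h4⟩
    exact ⟨h, N, z, k, h1, le_trans h2 hL, h3, h4⟩
  · intro f
    obtain ⟨h, N, z, k, h1, rfl⟩ := hM.exists_rep hgen f
    have hr1 : (0 : ℤ) < r := by exact_mod_cast Nat.pos_of_ne_zero hr0
    have e1 := Int.emod_nonneg k hr1.ne'
    have e2 := Int.emod_lt_of_pos k hr1
    refine ⟨_, h, N, z, (k % r).toNat, h1, le_rfl, by omega, ?_⟩
    congr 1
    have e3 : w ^ k = w ^ (k % r) := by
      conv_lhs => rw [← Int.mul_ediv_add_emod k r]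
      rw [zpow_add, zpow_mul, zpow_natCast, hw, one_zpow, one_mul]
    rw [e3, ← zpow_natCast, Int.toNat_of_nonneg e1]
  · rintro f L ζ ⟨h, N, z, k, h1, h2, h3, rfl⟩
    obtain ⟨⟨f1, f2⟩, f3, f4⟩ := hM.rep_fix h1
    rw [sc_mul, hM.w_pow_pm]
    rcases ζ with _ | _ | ⟨s, j, v, i⟩
    · obtain ⟨N', z', h5, h6⟩ := hR k h3
      rw [f2, hM.w_pow_none, one_mul]
      exact ⟨g ^ k, N', z', 0, h5, by omega, Nat.pos_of_ne_zero hr0, by simp⟩
    · rw [f4, hM.w_pow_some, one_mul]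
      exact ⟨1, 0, 0, k, rep_one, by omega, h3, by simp⟩
    · obtain ⟨v', i', -, hst⟩ := hM.rep_section hD h1 s j v i
      obtain ⟨n, z', h5, h6, h7⟩ := hst.rep
      rw [hM.w_pow_blk, mul_one]
      refine ⟨_, n, z', 0, h5, ?_, Nat.pos_of_ne_zero hr0, by simp [blk]⟩
      have e1 : 12 * (2 * C * n + z') ≤ 7 * (2 * C * N + z) + 22 * C := by
        have h8 : 8 * C * (3 * n) ≤ 8 * C * (N + 2) := Nat.mul_le_mul_left _ h6
        have h9 : 6 * (2 * z') ≤ 6 * (z + C * (N + 1)) := Nat.mul_le_mul_left _ h7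
        nlinarith
      have e2 : 12 * (2 * C * n + z') ≤ 7 * L + 22 * C := by omega
      omega

theorem finite_order_of_contracting (hM : IsModel Φ x y τ w g) (hc : Contracting Φ) :
    ∃ r, r ≠ 0 ∧ g ^ r = 1 := by
  obtain ⟨N, hN, h⟩ := hc
  have key : ∀ k : ℕ, w ^ k ∈ N := by
    intro k
    obtain ⟨n, hn⟩ := h (w ^ k)
    have h1 := hn (List.replicate n (some none)) (by simp)
    have h2 : ∀ n : ℕ, sectionAt Φ (w ^ k) (List.replicate n (some none)) = w ^ k := by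
      intro n
      induction n with
      | zero => rfl
      | succ n ih => rw [List.replicate_succ, sectionAt_cons, hM.w_pow_some, ih]
    rwa [h2] at h1
  have hni : ¬ Function.Injective fun k : ℕ => w ^ k := by
    intro hinj
    exact (Set.infinite_range_of_injective hinj) (hN.subset (by rintro _ ⟨k, rfl⟩; exact key k))
  have h2 : ∃ k l : ℕ, k < l ∧ w ^ k = w ^ l := by
    unfold Function.Injective at hni
    push Not at hni
    obtain ⟨k, l, hkl, hne⟩ := hni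
    rcases lt_or_gt_of_ne hne with h3 | h3
    · exact ⟨k, l, h3, hkl⟩
    · exact ⟨l, k, h3, hkl.symm⟩
  obtain ⟨k, l, hkl, he⟩ := h2
  refine ⟨l - k, by omega, ?_⟩
  have h3 : w ^ (l - k) = 1 := by
    have h4 : w ^ l = w ^ k * w ^ (l - k) := by
      rw [← pow_add]
      congr 1
      omega
    rw [h4] at he
    exact (left_eq_mul.1 he)
  rw [← hM.w_pow_none, h3, sc_one]

theorem contracting_iff [Finite M.S] (hM : IsModel Φ x y τ w g)
    (hgen : Subgroup.closure (gens x y w τ) = ⊤) (s : M.S) (a : ℕ × ℕ)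
    (hg : g = conf x y τ s (vec a)) : Contracting Φ ↔ M.Halts (s, a) := by
  rw [← hM.order_iff s a, ← hg]
  constructor
  · exact hM.finite_order_of_contracting
  · rintro ⟨r, hr0, hr⟩
    exact hM.contracting_of_finite_order hgen ⟨_, _, by rw [hg]; exact rep_conf s (vec a)⟩ hr0 hr

end IsModel

end Pool.Agent.WreathContraction
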