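import Pool.Agent.Lib.MP_e16db3_al.Data
import Pool.Agent.Lib.MP_e16db3_al.Undec

/-!
# The reduction is computable; undecidability of contraction
-/

namespace Pool.Agent.WreathContraction

theorem code_injective : Function.Injective Input.code := by
  rintro ⟨d, hd, n, π, W⟩ ⟨d', hd', n', π', W'⟩ h
  unfold Input.code at h
  simp only [Prod.mk.injEq] at h
  obtain ⟨rfl, h⟩ := h
  have hn : n = n' := by
    have := congrArg List.length h
    simpa using this
  subst hn
  have h2 := List.ofFn_injective h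
  have h3 : ∀ s, (List.ofFn fun x : Fin d => (π s x : ℕ)) = (List.ofFn fun x : Fin d => (π' s x : ℕ))
      ∧ (List.ofFn fun x : Fin d => (W s x).map fun p => ((p.1 : ℕ), p.2)) =
        (List.ofFn fun x : Fin d => (W' s x).map fun p => ((p.1 : ℕ), p.2)) := fun s =>
    Prod.mk.inj (congrFun h2 s)
  have hπ : π = π' := by
    funext s
    apply Equiv.ext
    intro x
    have h4 := congrFun (List.ofFn_injective (h3 s).1) x
    exact Fin.ext h4
  have hW : W = W' := by
    funext s x
    have h4 := congrFun (List.ofFn_injective (h3 s).2) x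
    have hinj : Function.Injective fun p : Fin n × Bool => ((p.1 : ℕ), p.2) := by
      rintro ⟨a, b⟩ ⟨a', b'⟩ h5
      simp only [Prod.mk.injEq] at h5
      exact Prod.ext (Fin.ext h5.1) h5.2
    exact (List.map_injective_iff.2 hinj) h4
  subst hπ
  subst hW
  rfl

theorem primrec_betaF (Q d₀ d₁ : ℕ) : Primrec (betaF Q d₀ d₁) := by
  unfold betaF
  refine Primrec.ite (Primrec.eq.comp Primrec.fst (Primrec.const 0)) Primrec.id ?_
  refine Primrec.pair (Primrec.nat_div.comp Primrec.fst (Primrec.const 2)) ?_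
  refine Primrec.nat_add.comp ?_ (Primrec.nat_mul.comp (Primrec.const Q) Primrec.snd)
  refine Primrec.ite (Primrec.eq.comp (Primrec.nat_mod.comp Primrec.fst (Primrec.const 2))
    (Primrec.const 1)) (Primrec.const d₁) (Primrec.const d₀)

theorem primrec_beta (Q d₀ d₁ : ℕ) : Primrec (beta Q d₀ d₁) := by
  have h : Primrec fun n : ℕ => (betaF Q d₀ d₁)^[n] (n, 0) :=
    Primrec.nat_iterate (f := fun n : ℕ => n) (g := fun n : ℕ => (n, 0))
      (h := fun _ p => betaF Q d₀ d₁ p) Primrec.id (Primrec.pair Primrec.id (Primrec.const 0))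
      ((primrec_betaF Q d₀ d₁).comp Primrec.snd).to₂
  exact Primrec.snd.comp h

theorem primrec_replicate {α : Type} [Primcodable α] (a : α) :
    Primrec fun n : ℕ => List.replicate n a := by
  have h : Primrec fun n : ℕ => (List.range n).map fun _ => a :=
    Primrec.list_map Primrec.list_range (Primrec.const a).to₂
  refine h.of_eq fun n => ?_
  simp [List.map_const']

/-- the shape of the code word of a configuration element -/
def rawW (t u y b : ℕ) : List (ℕ × Bool) :=
  (t, true) :: (List.replicate b (y, true) ++ (u, true) :: List.replicate b (y, false))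

theorem primrec_rawW (t u y : ℕ) : Primrec (rawW t u y) := by
  unfold rawW
  refine Primrec.list_cons.comp (Primrec.const (t, true)) ?_
  refine Primrec.list_append.comp (primrec_replicate (y, true)) ?_
  exact Primrec.list_cons.comp (Primrec.const (u, true)) (primrec_replicate (y, false))

theorem code_inp (M : Mach) (m : ℕ) [Fintype M.S] [NeZero M.Q] :
    ∃ (d : ℕ) (P : List ℕ) (L₂ : List (List (ℕ × Bool)))
      (L₁ : List (List ℕ × List (List (ℕ × Bool)))),
      ∀ W : List (Fin (nG M + 1) × Bool), (inp M m W).code =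
        (d, (P, (W.map fun p => ((p.1 : ℕ), p.2)) :: L₂) :: L₁) := by
  let π : Fin (nG M + 1) → Equiv.Perm (Fin (dA M m + 1)) := (inp M m []).perm
  let ω : List (Fin (nG M + 1) × Bool) → Fin (nG M + 1) → Fin (dA M m + 1) →
    List (Fin (nG M + 1) × Bool) := fun W => (inp M m W).word
  have hω0 : ∀ W, ω W 0 0 = W := by
    intro W
    change (if (0 : Fin (nG M + 1)) = 0 ∧ (0 : Fin (dA M m + 1)) = 0 then W else
      (wordG M m ((numG M).symm 0) ((numA M m).symm 0)).map fun p => (numG M p.1, p.2)) = W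
    exact if_pos ⟨rfl, rfl⟩
  have hω : ∀ W s x, ¬ (s = 0 ∧ x = 0) → ω W s x = ω [] s x := fun W s x h => by
    change (if s = 0 ∧ x = 0 then W else
      (wordG M m ((numG M).symm s) ((numA M m).symm x)).map fun p => (numG M p.1, p.2)) =
      (if s = 0 ∧ x = 0 then [] else
      (wordG M m ((numG M).symm s) ((numA M m).symm x)).map fun p => (numG M p.1, p.2))
    rw [if_neg h, if_neg h]
  refine ⟨dA M m + 1, List.ofFn fun x => (π 0 x : ℕ),
    List.ofFn fun x : Fin (dA M m) => (ω [] 0 x.succ).map fun p => ((p.1 : ℕ), p.2),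
    List.ofFn fun s : Fin (nG M) => (List.ofFn fun x => (π s.succ x : ℕ),
       List.ofFn fun x => (ω [] s.succ x).map fun p => ((p.1 : ℕ), p.2)), fun W => ?_⟩
  have e : (inp M m W).code = (dA M m + 1, List.ofFn fun s : Fin (nG M + 1) =>
    (List.ofFn fun x => (π s x : ℕ), List.ofFn fun x => (ω W s x).map
      fun p => ((p.1 : ℕ), p.2))) := rfl
  rw [e, List.ofFn_succ]
  have e1 : (List.ofFn fun x => (ω W 0 x).map fun p => ((p.1 : ℕ), p.2)) =
      (W.map fun p => ((p.1 : ℕ), p.2)) ::
        List.ofFn fun x : Fin (dA M m) => (ω [] 0 x.succ).map fun p => ((p.1 : ℕ), p.2) := by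
    rw [List.ofFn_succ, hω0]
    have e3 : (fun x : Fin (dA M m) => (ω W 0 x.succ).map fun p => ((p.1 : ℕ), p.2)) =
        fun x : Fin (dA M m) => (ω [] 0 x.succ).map fun p => ((p.1 : ℕ), p.2) := by
      funext x
      rw [hω W 0 x.succ (fun h => absurd h.2 (Fin.succ_ne_zero x))]
    rw [e3]
  have e2 : (fun s : Fin (nG M) => (List.ofFn fun x => (π s.succ x : ℕ),
      List.ofFn fun x => (ω W s.succ x).map fun p => ((p.1 : ℕ), p.2))) =
      fun s : Fin (nG M) => (List.ofFn fun x => (π s.succ x : ℕ),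
      List.ofFn fun x => (ω [] s.succ x).map fun p => ((p.1 : ℕ), p.2)) := by
    funext s
    have e3 : (fun x : Fin (dA M m + 1) => (ω W s.succ x).map fun p => ((p.1 : ℕ), p.2)) =
        fun x : Fin (dA M m + 1) => (ω [] s.succ x).map fun p => ((p.1 : ℕ), p.2) := by
      funext x
      rw [hω W s.succ x (fun h => absurd h.1 (Fin.succ_ne_zero s))]
    rw [e3]
  rw [e1, e2]

theorem primrec_shape (d : ℕ) (P : List ℕ) (L₂ : List (List (ℕ × Bool)))
    (L₁ : List (List ℕ × List (List (ℕ × Bool)))) (t u y Q d₀ d₁ : ℕ) :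
    Primrec fun n : ℕ => ((d, (P, rawW t u y (beta Q d₀ d₁ n) :: L₂) :: L₁) : Code) := by
  refine Primrec.pair (Primrec.const d) (Primrec.list_cons.comp ?_ (Primrec.const L₁))
  refine Primrec.pair (Primrec.const P) (Primrec.list_cons.comp ?_ (Primrec.const L₂))
  exact (primrec_rawW t u y).comp (primrec_beta Q d₀ d₁)

theorem raw_confW (M : Mach) [Fintype M.S] (s₀ : M.S) (b : ℕ) :
    (((confW M s₀ b).map fun p => (numG M p.1, p.2)).map fun p => ((p.1 : ℕ), p.2)) =
      rawW (numG M (some (Sum.inr (false, s₀)))) (numG M (some (Sum.inr (true, s₀))))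
        (numG M (some (Sum.inl true))) b := by
  simp [confW, rawW]

/-- A computable reduction of the halting problem to contraction. -/
theorem exists_reduction : ∃ R : ℕ → Input, (Primrec fun n => (R n).code) ∧
    ∀ n, (R n).DefinesContracting ↔
      (Nat.Partrec.Code.eval (Denumerable.ofNat Nat.Partrec.Code n) 0).Dom := by
  obtain ⟨M, hfin, hQ, s₀, d₀, d₁, h⟩ := exists_mach
  have := Fintype.ofFinite M.S
  have : NeZero M.Q := ⟨by omega⟩
  obtain ⟨m, hm⟩ : ∃ m, ∀ s j, (M.A s j).1 + (M.A s j).2 + 2 ≤ m := by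
    have hf : (Set.range fun p : M.S × M.J => (M.A p.1 p.2).1 + (M.A p.1 p.2).2 + 2).Finite :=
      Set.finite_range _
    obtain ⟨m, hm⟩ := hf.bddAbove
    exact ⟨m, fun s j => hm ⟨(s, j), rfl⟩⟩
  obtain ⟨d, P, L₂, L₁, hc⟩ := code_inp M m
  refine ⟨fun n => inp M m ((confW M s₀ (beta M.Q d₀ d₁ n)).map fun p => (numG M p.1, p.2)),
    ?_, ?_⟩
  · have h1 := primrec_shape d P L₂ L₁ (numG M (some (Sum.inr (false, s₀))))
      (numG M (some (Sum.inr (true, s₀)))) (numG M (some (Sum.inl true))) M.Q d₀ d₁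
    refine h1.of_eq fun n => ?_
    have h2 := hc ((confW M s₀ (beta M.Q d₀ d₁ n)).map fun p => (numG M p.1, p.2))
    have h3 := raw_confW M s₀ (beta M.Q d₀ d₁ n)
    rw [h3] at h2
    exact h2.symm
  · intro n
    exact (inp_defines_iff M m hQ hm s₀ _).trans (h n)

/-- No algorithm decides contraction. -/
theorem no_algorithm : ¬ ∃ f : Code →. Bool, Partrec f ∧
    ∀ I : Input, ∃ b ∈ f I.code, (b = true ↔ I.DefinesContracting) := by
  classical
  rintro ⟨f, hf, h⟩
  obtain ⟨R, hR, hRc⟩ := exists_reduction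
  apply ComputablePred.halting_problem 0
  have h1 : Partrec fun c : Nat.Partrec.Code => f (R (Encodable.encode c)).code :=
    hf.comp (hR.to_comp.comp Computable.encode)
  refine ⟨inferInstance, Partrec.of_eq_tot h1 fun c => ?_⟩
  obtain ⟨b, hb, hbc⟩ := h (R (Encodable.encode c))
  rw [hRc, Denumerable.ofNat_encode] at hbc
  have e : b = decide (Nat.Partrec.Code.eval c 0).Dom := by
    by_cases hd : (Nat.Partrec.Code.eval c 0).Dom
    · rw [hbc.2 hd]
      simp [hd]
    · have : b ≠ true := fun hb' => hd (hbc.1 hb')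
      simp [hd, this]
  rw [← e]
  exact hb

theorem not_computablePred :
    ¬ ComputablePred fun c : Code => ∃ I : Input, I.code = c ∧ I.DefinesContracting := by
  rintro ⟨hd, hc⟩
  apply no_algorithm
  refine ⟨fun c => Part.some (decide (∃ I : Input, I.code = c ∧ I.DefinesContracting)), hc.partrec,
    fun I => ⟨_, Part.mem_some _, ?_⟩⟩
  rw [decide_eq_true_iff]
  constructor
  · rintro ⟨I', h1, h2⟩
    rwa [code_injective h1] at h2
  · intro h
    exact ⟨I, rfl, h⟩

end Pool.Agent.WreathContraction
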