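import Pool.Agent.Lib.MP_e16db3_al.Basic

/-!
# Two-register affine machines, carries, and the path letters
-/

namespace Pool.Agent.WreathContraction

/-- A machine with a set `S` of states and two registers. In state `s` with register contents
`a = Q c + j` (componentwise) the next state is `next s j` and the next contents are
`A c + B` (componentwise). -/
structure Mach where
  /-- states -/
  S : Type
  /-- base -/
  Q : ℕ
  /-- halting states -/
  halt : S → Bool
  /-- next state -/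
  next : S → ZMod Q × ZMod Q → S
  /-- multipliers -/
  A : S → ZMod Q × ZMod Q → ℕ × ℕ
  /-- offsets -/
  B : S → ZMod Q × ZMod Q → ℕ × ℕ

namespace Mach

variable (M : Mach)

/-- pairs of digits -/
abbrev J : Type := ZMod M.Q × ZMod M.Q

/-- one step of the machine -/
def step (c : M.S × ℕ × ℕ) : M.S × ℕ × ℕ :=
  (M.next c.1 ((c.2.1 : ZMod M.Q), (c.2.2 : ZMod M.Q)),
    (M.A c.1 ((c.2.1 : ZMod M.Q), (c.2.2 : ZMod M.Q))).1 * (c.2.1 / M.Q)
      + (M.B c.1 ((c.2.1 : ZMod M.Q), (c.2.2 : ZMod M.Q))).1,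
    (M.A c.1 ((c.2.1 : ZMod M.Q), (c.2.2 : ZMod M.Q))).2 * (c.2.2 / M.Q)
      + (M.B c.1 ((c.2.1 : ZMod M.Q), (c.2.2 : ZMod M.Q))).2)

/-- the machine halts -/
def Halts (c : M.S × ℕ × ℕ) : Prop := ∃ k : ℕ, M.halt ((M.step^[k] c).1) = true

theorem halts_of_step {c : M.S × ℕ × ℕ} (h : M.Halts (M.step c)) : M.Halts c := by
  obtain ⟨k, hk⟩ := h
  exact ⟨k + 1, by rwa [Function.iterate_succ_apply]⟩

theorem halts_step {c : M.S × ℕ × ℕ} (h : M.Halts c) (h0 : M.halt c.1 = false) :
    M.Halts (M.step c) := by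
  obtain ⟨k, hk⟩ := h
  cases k with
  | zero => simp only [Function.iterate_zero, id_eq, h0] at hk; exact absurd hk (by simp)
  | succ k => exact ⟨k, by rwa [Function.iterate_succ_apply] at hk⟩

end Mach

/-! ### Carries -/

section Carry

variable {Q : ℕ}

/-- the carry when adding `n` to the digit `i` in base `Q` -/
def carry (i : ZMod Q) (n : ℤ) : ℤ := ((i.val : ℤ) + n) / Q

theorem carry_add (hQ : 2 ≤ Q) (i : ZMod Q) (a b : ℤ) :
    carry i (a + b) = carry (i + (a : ZMod Q)) b + carry i a := by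
  have : NeZero Q := ⟨by omega⟩
  have h1 : ((i + (a : ZMod Q)).val : ℤ) = ((i.val : ℤ) + a) % Q := by
    rw [← ZMod.coe_intCast]
    simp
  have hQ0 : (Q : ℤ) ≠ 0 := by exact_mod_cast (NeZero.ne Q)
  have h2 := Int.mul_ediv_add_emod ((i.val : ℤ) + a) Q
  unfold carry
  rw [h1]
  have h3 : (i.val : ℤ) + (a + b) = (((i.val : ℤ) + a) % Q + b) + Q * (((i.val : ℤ) + a) / Q) := by
    omega
  rw [h3, Int.add_mul_ediv_left _ _ hQ0]

theorem carry_zero (hQ : 2 ≤ Q) (i : ZMod Q) : carry i 0 = 0 := by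
  have h := carry_add hQ i 0 0
  simp only [add_zero, Int.cast_zero] at h
  omega

theorem carry_one (hQ : 2 ≤ Q) (i : ZMod Q) : carry i 1 = if i = -1 then 1 else 0 := by
  have : NeZero Q := ⟨by omega⟩
  have : Fact (1 < Q) := ⟨by omega⟩
  have hlt := ZMod.val_lt i
  have hneg : i = -1 ↔ i.val + 1 = Q := by
    constructor
    · rintro rfl
      obtain ⟨q, rfl⟩ : ∃ q, Q = q + 1 := ⟨Q - 1, by omega⟩
      have h := ZMod.val_neg_one q
      omega
    · intro h
      have h2 : ((i.val + 1 : ℕ) : ZMod Q) = 0 := by rw [h]; simp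
      rw [Nat.cast_add, ZMod.natCast_zmod_val, Nat.cast_one] at h2
      exact eq_neg_of_add_eq_zero_left h2
  unfold carry
  split_ifs with h
  · have h2 := hneg.1 h
    have h3 : (i.val : ℤ) + 1 = Q := by exact_mod_cast h2
    rw [h3]
    exact Int.ediv_self (by omega)
  · have h2 : i.val + 1 < Q := by
      rcases Nat.lt_or_ge (i.val + 1) Q with h3 | h3
      · exact h3
      · exact absurd (hneg.2 (by omega)) h
    exact Int.ediv_eq_zero_of_lt (by positivity) (by exact_mod_cast h2)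

theorem carry_neg (hQ : 2 ≤ Q) (i : ZMod Q) (a : ℤ) : carry (i + (a : ZMod Q)) (-a) = - carry i a := by
  have h := carry_add hQ i a (-a)
  rw [add_neg_cancel, carry_zero hQ] at h
  omega

theorem two_carry_le (hQ : 2 ≤ Q) (i : ZMod Q) (a : ℤ) :
    2 * (carry i a).natAbs ≤ a.natAbs + 2 := by
  have : NeZero Q := ⟨by omega⟩
  have hlt := ZMod.val_lt i
  unfold carry
  have h2 := Int.mul_ediv_add_emod ((i.val : ℤ) + a) Q
  have h3 := Int.emod_nonneg ((i.val : ℤ) + a) (show (Q : ℤ) ≠ 0 by omega)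
  have h4 := Int.emod_lt_of_pos ((i.val : ℤ) + a) (show (0 : ℤ) < Q by omega)
  generalize ((i.val : ℤ) + a) / Q = c at *
  generalize ((i.val : ℤ) + a) % Q = r at *
  have hQ' : (2 : ℤ) ≤ Q := by exact_mod_cast hQ
  have hlt' : ((i.val : ℕ) : ℤ) < Q := by exact_mod_cast hlt
  rcases le_or_gt 0 c with hc | hc
  · have h5 : (Q : ℤ) * c ≤ a + Q := by omega
    rcases eq_or_lt_of_le hc with h0 | h0
    · subst h0; simp
    · have h6 : 2 * (c - 1) ≤ Q * (c - 1) := mul_le_mul_of_nonneg_right hQ' (by omega)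
      have h7 : (Q : ℤ) * (c - 1) = Q * c - Q := by ring
      omega
  · have h6 : 2 * (-c - 1) ≤ Q * (-c - 1) := mul_le_mul_of_nonneg_right hQ' (by omega)
    have h7 : (Q : ℤ) * (-c - 1) = - (Q * c) - Q := by ring
    omega

end Carry

end Pool.Agent.WreathContraction
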