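import Pool.Agent.Lib.MP_e16db3_al.Mach

/-!
# The self-similar group attached to a machine: abstract form
-/

namespace Pool.Agent.WreathContraction

/-- one of the two reflections of the path with vertices `0, …, 2m` -/
def flipN (m : ℕ) (c : Bool) (v : ℕ) : ℕ :=
  if c = true then (if v = 2 * m then v else if v % 2 = 0 then v + 1 else v - 1)
  else (if v = 0 then v else if v % 2 = 1 then v + 1 else v - 1)

theorem flipN_lt {m : ℕ} (c : Bool) {v : ℕ} (hv : v < 2 * m + 1) : flipN m c v < 2 * m + 1 := by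
  unfold flipN
  split_ifs <;> omega

theorem flipN_flipN {m : ℕ} (c : Bool) {v : ℕ} (hv : v < 2 * m + 1) :
    flipN m c (flipN m c v) = v := by
  have hv2 := Nat.mod_two_eq_zero_or_one v
  cases c
  · by_cases h0 : v = 0
    · simp [flipN, h0]
    · rcases hv2 with h2 | h2
      · have h3 : flipN m false v = v - 1 := by simp [flipN, h0, h2]
        have h4 : v - 1 ≠ 0 := by omega
        have h5 : (v - 1) % 2 = 1 := by omega
        rw [h3]
        simp only [flipN, Bool.false_eq_true, if_false, if_neg h4, if_pos h5]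
        omega
      · have h3 : flipN m false v = v + 1 := by simp [flipN, h0, h2]
        have h5 : ¬ (v + 1) % 2 = 1 := by omega
        rw [h3]
        simp only [flipN, Bool.false_eq_true, if_false, if_neg (Nat.succ_ne_zero v), if_neg h5]
        omega
  · by_cases h0 : v = 2 * m
    · simp [flipN, h0]
    · rcases hv2 with h2 | h2
      · have h3 : flipN m true v = v + 1 := by simp [flipN, h0, h2]
        have h4 : ¬ v + 1 = 2 * m := by omega
        have h5 : ¬ (v + 1) % 2 = 0 := by omega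
        rw [h3]
        simp only [flipN, if_true, if_neg h4, if_neg h5]
        omega
      · have h3 : flipN m true v = v - 1 := by simp [flipN, h0, h2]
        have h4 : ¬ v - 1 = 2 * m := by omega
        have h5 : (v - 1) % 2 = 0 := by omega
        rw [h3]
        simp only [flipN, if_true, if_neg h4, if_pos h5]
        omega

/-- the reflection on `Fin (2m+1)` -/
def flip {m : ℕ} (c : Bool) (v : Fin (2 * m + 1)) : Fin (2 * m + 1) :=
  ⟨flipN m c v.1, flipN_lt c v.2⟩

theorem flip_flip {m : ℕ} (c : Bool) (v : Fin (2 * m + 1)) : flip c (flip c v) = v :=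
  Fin.ext (flipN_flipN c v.2)

/-- the vertex fixed by the reflection -/
def endp (m : ℕ) (c : Bool) : ℕ := if c = true then 2 * m else 0

theorem flipN_endp (m : ℕ) (c : Bool) : flipN m c (endp m c) = endp m c := by
  cases c <;> simp [flipN, endp]

variable (M : Mach)

/-- the column in which the reflection is active -/
def col (c : Bool) (j : M.J) : M.J := if c = true then 0 else j

/-- the vertices at which the odometers produce a carry -/
def mu (c : Bool) (s : M.S) (j : M.J) (v : ℕ) : Bool :=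
  if c = true then decide (v % 2 = 0 ∧ 2 * (M.A s j).1 < v ∧ v ≤ 2 * ((M.A s j).1 + (M.A s j).2))
  else decide (v % 2 = 0 ∧ 2 ≤ v ∧ v ≤ 2 * (M.A s j).1)

/-- the letters of the blocks -/
abbrev Letter (m : ℕ) : Type := M.S × M.J × Fin (2 * m + 1) × M.J

/-- the alphabet -/
abbrev Alph (m : ℕ) : Type := Option (Option (Letter M m))

variable {M} {m : ℕ}

/-- block letters -/
def blk (s : M.S) (j : M.J) (v : Fin (2 * m + 1)) (i : M.J) : Alph M m := some (some (s, j, v, i))

theorem blk_inj {s s' : M.S} {j j' : M.J} {v v' : Fin (2 * m + 1)} {i i' : M.J}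
    (h : blk s j v i = blk s' j' v' i') : s = s' ∧ j = j' ∧ v = v' ∧ i = i' := by
  simpa [blk] using h

variable {G : Type} [Group G]

open scoped Classical in
/-- The defining equations of the generators. -/
structure IsModel (Φ : G →* Wr (Alph M m) G) (x y : G) (τ : Bool → M.S → G) (w g : G) : Prop where
  hQ : 2 ≤ M.Q
  hm : ∀ s j, (M.A s j).1 + (M.A s j).2 + 2 ≤ m
  faithful : Faithful Φ
  x_pm : ∀ s j v i, pm Φ x (blk s j v i) = blk s j v (i.1 + 1, i.2)
  x_sc : ∀ s j v i, sc Φ x (blk s j v i) = if mu M false s j v.1 = true ∧ i.1 = -1 then x else 1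
  y_pm : ∀ s j v i, pm Φ y (blk s j v i) = blk s j v (i.1, i.2 + 1)
  y_sc : ∀ s j v i, sc Φ y (blk s j v i) = if mu M true s j v.1 = true ∧ i.2 = -1 then y else 1
  τ_pm : ∀ c s₀ s j v i, pm Φ (τ c s₀) (blk s j v i) =
    if s = s₀ ∧ M.halt s = false ∧ i = col M c j then blk s j (flip c v) i else blk s j v i
  τ_sc : ∀ c s₀ s j v i, sc Φ (τ c s₀) (blk s j v i) =
    if s = s₀ ∧ M.halt s = false ∧ i = col M c j then
      (if v.1 = endp m c then τ c (M.next s j)
        else if c = false ∧ v.1 = 1 then (x ^ (M.B s j).1 * y ^ (M.B s j).2)⁻¹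
        else if c = false ∧ v.1 = 2 then x ^ (M.B s j).1 * y ^ (M.B s j).2
        else 1)
    else 1
  x_none : pm Φ x none = none
  x_none' : sc Φ x none = 1
  x_some : pm Φ x (some none) = some none
  x_some' : sc Φ x (some none) = 1
  y_none : pm Φ y none = none
  y_none' : sc Φ y none = 1
  y_some : pm Φ y (some none) = some none
  y_some' : sc Φ y (some none) = 1
  τ_none : ∀ c s, pm Φ (τ c s) none = none
  τ_none' : ∀ c s, sc Φ (τ c s) none = 1
  τ_some : ∀ c s, pm Φ (τ c s) (some none) = some none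
  τ_some' : ∀ c s, sc Φ (τ c s) (some none) = 1
  w_pm : ∀ ζ, pm Φ w ζ = ζ
  w_none : sc Φ w none = g
  w_some : sc Φ w (some none) = w
  w_blk : ∀ p, sc Φ w (some (some p)) = 1

section Odometers

variable {X : Type} {Φ : G →* Wr X G}

theorem zpow_line {Q : ℕ} (hQ : 2 ≤ Q) {z c : G} {L : ZMod Q → X}
    (h1 : ∀ i, pm Φ z (L i) = L (i + 1))
    (h2 : ∀ i, sc Φ z (L i) = if i = -1 then c else 1) (n : ℤ) (i : ZMod Q) :
    pm Φ (z ^ n) (L i) = L (i + (n : ZMod Q)) ∧ sc Φ (z ^ n) (L i) = c ^ (carry i n) := by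
  induction n using Int.induction_on with
  | zero =>
    rw [zpow_zero, carry_zero hQ, zpow_zero, pm_one, sc_one]
    simp
  | succ n ih =>
    obtain ⟨ih1, ih2⟩ := ih
    have e : z ^ ((n : ℤ) + 1) = z * z ^ (n : ℤ) := by
      rw [add_comm, zpow_add, zpow_one]
    rw [e, pm_mul, sc_mul, ih1, ih2, h1, h2, carry_add hQ, carry_one hQ, zpow_add]
    constructor
    · push_cast
      rw [add_assoc]
    · split_ifs <;> simp
  | pred n ih =>
    obtain ⟨ih1, ih2⟩ := ih
    have e : z ^ (-(n : ℤ) - 1) = z⁻¹ * z ^ (-(n : ℤ)) := by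
      rw [sub_eq_add_neg, add_comm, zpow_add, zpow_neg_one]
    have e2 : L (i + ((-(n : ℤ) : ℤ) : ZMod Q)) =
        pm Φ z (L (i + ((-(n : ℤ) - 1 : ℤ) : ZMod Q))) := by
      rw [h1]
      congr 1
      push_cast
      ring
    have e3 := carry_add hQ i (-(n : ℤ) - 1) 1
    rw [carry_one hQ] at e3
    have e4 : (-(n : ℤ) - 1 + 1) = -(n : ℤ) := by ring
    rw [e4] at e3
    rw [e, pm_mul, sc_mul, ih1, ih2, e2, pm_inv_pm, sc_inv, h2, e3]
    refine ⟨rfl, ?_⟩
    split_ifs with h
    · rw [zpow_add, zpow_one, ← mul_assoc, inv_mul_cancel, one_mul]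
    · rw [inv_one, one_mul, zero_add]

end Odometers

namespace IsModel

variable {Φ : G →* Wr (Alph M m) G} {x y : G} {τ : Bool → M.S → G} {w g : G}

theorem mu_not_both (s : M.S) (j : M.J) (v : ℕ) (h1 : mu M false s j v = true)
    (h2 : mu M true s j v = true) : False := by
  simp only [mu, Bool.false_eq_true, if_false, if_true, decide_eq_true_eq] at h1 h2
  omega

theorem comm_xy (h : IsModel Φ x y τ w g) : x * y = y * x := by
  apply h.faithful.ext
  · rintro (_ | _ | ⟨s, j, v, i⟩)
    · rw [pm_mul, pm_mul, h.x_none, h.y_none, h.x_none]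
    · rw [pm_mul, pm_mul, h.x_some, h.y_some, h.x_some]
    · change pm Φ (x * y) (blk s j v i) = pm Φ (y * x) (blk s j v i)
      rw [pm_mul, pm_mul, h.x_pm, h.y_pm, h.x_pm, h.y_pm]
  · rintro (_ | _ | ⟨s, j, v, i⟩)
    · rw [sc_mul, sc_mul, h.x_none, h.y_none, h.x_none', h.y_none']
    · rw [sc_mul, sc_mul, h.x_some, h.y_some, h.x_some', h.y_some']
    · change sc Φ (x * y) (blk s j v i) = sc Φ (y * x) (blk s j v i)
      rw [sc_mul, sc_mul, h.x_pm, h.y_pm, h.x_sc, h.y_sc, h.x_sc, h.y_sc]
      have := mu_not_both s j v.1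
      split_ifs with h1 h2 h2 <;> simp_all

end IsModel

/-- the translation by `a` -/
def Tr (x y : G) (a : ℤ × ℤ) : G := x ^ a.1 * y ^ a.2

variable (M) in
/-- the part of the carry seen at a vertex -/
def mask (s : M.S) (j : M.J) (v : ℕ) (a : ℤ × ℤ) : ℤ × ℤ :=
  (if mu M false s j v = true then a.1 else 0, if mu M true s j v = true then a.2 else 0)

/-- componentwise carry -/
def carry2 {Q : ℕ} (i : ZMod Q × ZMod Q) (a : ℤ × ℤ) : ℤ × ℤ := (carry i.1 a.1, carry i.2 a.2)

/-- translate a column -/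
def sh {Q : ℕ} (i : ZMod Q × ZMod Q) (a : ℤ × ℤ) : ZMod Q × ZMod Q :=
  (i.1 + (a.1 : ZMod Q), i.2 + (a.2 : ZMod Q))

namespace IsModel

variable {Φ : G →* Wr (Alph M m) G} {x y : G} {τ : Bool → M.S → G} {w g : G}

theorem Tr_add (h : IsModel Φ x y τ w g) (a b : ℤ × ℤ) :
    Tr x y (a + b) = Tr x y a * Tr x y b := by
  have hc : Commute x y := h.comm_xy
  unfold Tr
  rw [Prod.fst_add, Prod.snd_add, zpow_add, zpow_add]
  have h1 : Commute (x ^ b.1) (y ^ a.2) := (hc.zpow_zpow b.1 a.2)
  have h2 := h1.eq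
  calc x ^ a.1 * x ^ b.1 * (y ^ a.2 * y ^ b.2)
      = x ^ a.1 * (x ^ b.1 * y ^ a.2) * y ^ b.2 := by group
    _ = x ^ a.1 * (y ^ a.2 * x ^ b.1) * y ^ b.2 := by rw [h2]
    _ = x ^ a.1 * y ^ a.2 * (x ^ b.1 * y ^ b.2) := by group

theorem Tr_zero : Tr x y 0 = 1 := by simp [Tr]

theorem Tr_neg (h : IsModel Φ x y τ w g) (a : ℤ × ℤ) : Tr x y (-a) = (Tr x y a)⁻¹ := by
  apply eq_inv_of_mul_eq_one_left
  rw [← h.Tr_add, neg_add_cancel, Tr_zero]

theorem Tr_blk (h : IsModel Φ x y τ w g) (a : ℤ × ℤ) (s : M.S) (j : M.J) (v : Fin (2 * m + 1))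
    (i : M.J) : pm Φ (Tr x y a) (blk s j v i) = blk s j v (sh i a) ∧
      sc Φ (Tr x y a) (blk s j v i) = Tr x y (mask M s j v.1 (carry2 i a)) := by
  have hy := zpow_line (Φ := Φ) h.hQ (z := y) (c := if mu M true s j v.1 = true then y else 1)
    (L := fun k => blk s j v (i.1, k)) (fun k => h.y_pm s j v (i.1, k)) (fun k => by
      rw [h.y_sc]
      by_cases h1 : mu M true s j v.1 = true <;> by_cases h2 : k = -1 <;> simp [h1, h2]) a.2 i.2
  have hx := zpow_line (Φ := Φ) h.hQ (z := x) (c := if mu M false s j v.1 = true then x else 1)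
    (L := fun k => blk s j v (k, i.2 + (a.2 : ZMod M.Q)))
    (fun k => h.x_pm s j v (k, i.2 + (a.2 : ZMod M.Q))) (fun k => by
      rw [h.x_sc]
      by_cases h1 : mu M false s j v.1 = true <;> by_cases h2 : k = -1 <;> simp [h1, h2]) a.1 i.1
  have hi : (i.1, i.2) = i := rfl
  rw [hi] at hy
  constructor
  · change pm Φ (x ^ a.1 * y ^ a.2) (blk s j v i) = _
    rw [pm_mul, hy.1, hx.1]
    rfl
  · change sc Φ (x ^ a.1 * y ^ a.2) (blk s j v i) = _
    rw [sc_mul, hy.1, hx.2, hy.2]
    unfold Tr mask carry2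
    congr 1
    · split_ifs <;> simp
    · split_ifs <;> simp

theorem fix_zpow {X : Type} {Φ : G →* Wr X G} {z : G} {ζ : X} (h1 : pm Φ z ζ = ζ)
    (h2 : sc Φ z ζ = 1) (n : ℤ) : pm Φ (z ^ n) ζ = ζ ∧ sc Φ (z ^ n) ζ = 1 := by
  have hinv : pm Φ z⁻¹ ζ = ζ ∧ sc Φ z⁻¹ ζ = 1 := by
    have e1 := pm_inv_pm Φ z ζ
    have e2 := sc_inv Φ z ζ
    rw [h1] at e1 e2
    rw [h2, inv_one] at e2
    exact ⟨e1, e2⟩
  induction n using Int.induction_on with
  | zero => rw [zpow_zero, pm_one, sc_one]; exact ⟨rfl, rfl⟩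
  | succ n ih =>
    rw [add_comm, zpow_add, zpow_one, pm_mul, sc_mul, ih.1, ih.2, h1, h2]
    exact ⟨rfl, mul_one 1⟩
  | pred n ih =>
    rw [sub_eq_add_neg, add_comm, zpow_add, zpow_neg_one, pm_mul, sc_mul, ih.1, ih.2, hinv.1,
      hinv.2]
    exact ⟨rfl, mul_one 1⟩

theorem Tr_none (h : IsModel Φ x y τ w g) (a : ℤ × ℤ) :
    pm Φ (Tr x y a) none = none ∧ sc Φ (Tr x y a) none = 1 := by
  have h1 := fix_zpow h.x_none h.x_none' a.1
  have h2 := fix_zpow h.y_none h.y_none' a.2
  unfold Tr
  rw [pm_mul, sc_mul, h2.1, h2.2, h1.1, h1.2]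
  exact ⟨rfl, mul_one 1⟩

theorem Tr_some (h : IsModel Φ x y τ w g) (a : ℤ × ℤ) :
    pm Φ (Tr x y a) (some none) = some none ∧ sc Φ (Tr x y a) (some none) = 1 := by
  have h1 := fix_zpow h.x_some h.x_some' a.1
  have h2 := fix_zpow h.y_some h.y_some' a.2
  unfold Tr
  rw [pm_mul, sc_mul, h2.1, h2.2, h1.1, h1.2]
  exact ⟨rfl, mul_one 1⟩

/-- the offset as a vector of integers -/
def off (M : Mach) (s : M.S) (j : M.J) : ℤ × ℤ := (((M.B s j).1 : ℤ), ((M.B s j).2 : ℤ))

theorem Tr_off (s : M.S) (j : M.J) :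
    Tr x y (off M s j) = x ^ (M.B s j).1 * y ^ (M.B s j).2 := by
  simp [Tr, off]

/-- the section of a reflection at a vertex of its active column -/
theorem τ_active (h : IsModel Φ x y τ w g) (c : Bool) (s : M.S) (j : M.J) (v : Fin (2 * m + 1))
    (i : M.J) (hh : M.halt s = false) (hi : i = col M c j) :
    pm Φ (τ c s) (blk s j v i) = blk s j (flip c v) i ∧
    sc Φ (τ c s) (blk s j v i) =
      (if v.1 = endp m c then τ c (M.next s j)
        else if c = false ∧ v.1 = 1 then Tr x y (-off M s j)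
        else if c = false ∧ v.1 = 2 then Tr x y (off M s j) else 1) := by
  constructor
  · rw [h.τ_pm, if_pos ⟨rfl, hh, hi⟩]
  · rw [h.τ_sc, if_pos ⟨rfl, hh, hi⟩, h.Tr_neg, Tr_off]

theorem τ_inactive (h : IsModel Φ x y τ w g) (c : Bool) (s₀ s : M.S) (j : M.J)
    (v : Fin (2 * m + 1)) (i : M.J) (hn : ¬ (s = s₀ ∧ M.halt s = false ∧ i = col M c j)) :
    pm Φ (τ c s₀) (blk s j v i) = blk s j v i ∧ sc Φ (τ c s₀) (blk s j v i) = 1 := by
  constructor
  · rw [h.τ_pm, if_neg hn]
  · rw [h.τ_sc, if_neg hn]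

/-- the reflections are involutions -/
theorem τ_sq (h : IsModel Φ x y τ w g) (c : Bool) (s : M.S) : τ c s * τ c s = 1 := by
  refine h.faithful.coind ({1} ∪ Set.range fun s => τ c s * τ c s) ?_ _ (Or.inr ⟨s, rfl⟩)
  rintro z (rfl | ⟨s₀, rfl⟩)
  · exact ⟨fun ζ => pm_one Φ ζ, fun ζ => Or.inl (sc_one Φ ζ)⟩
  · constructor
    · rintro (_ | _ | ⟨s, j, v, i⟩)
      · change pm Φ (τ c s₀ * τ c s₀) none = none
        rw [pm_mul, h.τ_none, h.τ_none]
      · change pm Φ (τ c s₀ * τ c s₀) (some none) = some none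
        rw [pm_mul, h.τ_some, h.τ_some]
      · change pm Φ (τ c s₀ * τ c s₀) (blk s j v i) = blk s j v i
        by_cases hc : s = s₀ ∧ M.halt s = false ∧ i = col M c j
        · obtain ⟨rfl, hh, hi⟩ := hc
          rw [pm_mul, (h.τ_active c s j v i hh hi).1, (h.τ_active c s j _ i hh hi).1, flip_flip]
        · rw [pm_mul, (h.τ_inactive c s₀ s j v i hc).1, (h.τ_inactive c s₀ s j v i hc).1]
    · rintro (_ | _ | ⟨s, j, v, i⟩)
      · left
        change sc Φ (τ c s₀ * τ c s₀) none = 1
        rw [sc_mul, h.τ_none', h.τ_none, h.τ_none', mul_one]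
      · left
        change sc Φ (τ c s₀ * τ c s₀) (some none) = 1
        rw [sc_mul, h.τ_some', h.τ_some, h.τ_some', mul_one]
      · change sc Φ (τ c s₀ * τ c s₀) (blk s j v i) ∈ _
        by_cases hc : s = s₀ ∧ M.halt s = false ∧ i = col M c j
        · obtain ⟨rfl, hh, hi⟩ := hc
          rw [sc_mul, (h.τ_active c s j v i hh hi).1, (h.τ_active c s j v i hh hi).2,
            (h.τ_active c s j _ i hh hi).2]
          have hv := v.2
          have hm2 := h.hm s j
          by_cases h0 : v.1 = endp m c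
          · right
            have h1 : (flip c v).1 = endp m c := by
              change flipN m c v.1 = _
              rw [h0, flipN_endp]
            rw [if_pos h0, if_pos h1]
            exact ⟨_, rfl⟩
          · left
            rw [Set.mem_singleton_iff]
            have h1 : ¬ (flip c v).1 = endp m c := by
              intro h2
              apply h0
              have h3 : flip c (flip c v) = v := flip_flip c v
              have h4 : (flip c (flip c v)).1 = endp m c := by
                change flipN m c (flip c v).1 = _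
                rw [h2, flipN_endp]
              rw [h3] at h4
              exact h4
            rw [if_neg h0, if_neg h1]
            cases c with
            | true => simp
            | false =>
              have h5 : (flip false v).1 = if v.1 = 0 then v.1 else
                if v.1 % 2 = 1 then v.1 + 1 else v.1 - 1 := by
                simp [flip, flipN]
              rw [h5]
              simp only [endp, Bool.false_eq_true, if_false] at h0
              rw [if_neg h0]
              by_cases h6 : v.1 = 1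
              · simp [h6, ← h.Tr_add, Tr_zero]
              · by_cases h7 : v.1 = 2
                · simp [h7, ← h.Tr_add, Tr_zero]
                · have h8 : ¬ (if v.1 % 2 = 1 then v.1 + 1 else v.1 - 1) = 1 := by
                    split_ifs <;> omega
                  have h9 : ¬ (if v.1 % 2 = 1 then v.1 + 1 else v.1 - 1) = 2 := by
                    split_ifs <;> omega
                  simp [h6, h7, h8, h9]
        · left
          change sc Φ (τ c s₀ * τ c s₀) (blk s j v i) = 1
          rw [sc_mul, (h.τ_inactive c s₀ s j v i hc).1, (h.τ_inactive c s₀ s j v i hc).2, mul_one]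

theorem τ_inv (h : IsModel Φ x y τ w g) (c : Bool) (s : M.S) : (τ c s)⁻¹ = τ c s :=
  inv_eq_of_mul_eq_one_left (h.τ_sq c s)

end IsModel

end Pool.Agent.WreathContraction
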