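import Pool.Agent.Lib.MP_e16db3_al.Contr

/-!
# The order of a configuration element is finite iff the machine halts
-/

namespace Pool.Agent.WreathContraction

section General

variable {X G : Type} [Group G] {Φ : G →* Wr X G}

theorem pow_fixed {h : G} {ζ : X} (h1 : pm Φ h ζ = ζ) (n : ℕ) :
    pm Φ (h ^ n) ζ = ζ ∧ sc Φ (h ^ n) ζ = (sc Φ h ζ) ^ n := by
  induction n with
  | zero => rw [pow_zero, pow_zero, pm_one, sc_one]; exact ⟨rfl, rfl⟩
  | succ n ih => rw [pow_succ', pm_mul, sc_mul, ih.1, ih.2, h1, pow_succ']; exact ⟨rfl, rfl⟩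

theorem conj_fixed {g σ : G} (hσ : g * σ = σ * g⁻¹) {n : ℕ} {ζ : X}
    (h1 : pm Φ (g ^ n) ζ = ζ) (h2 : sc Φ (g ^ n) ζ = 1) :
    pm Φ (g ^ n) (pm Φ σ ζ) = pm Φ σ ζ ∧ sc Φ (g ^ n) (pm Φ σ ζ) = 1 := by
  have e : g ^ n * σ = σ * (g ^ n)⁻¹ := by
    have h3 : SemiconjBy σ g⁻¹ g := hσ.symm
    have h4 := h3.pow_right n
    rw [inv_pow] at h4
    exact h4.eq.symm
  have e1 := pm_mul Φ (g ^ n) σ ζ
  have e2 := sc_mul Φ (g ^ n) σ ζ
  have e3 : pm Φ (g ^ n)⁻¹ ζ = ζ := by
    conv_lhs => rw [← h1]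
    rw [pm_inv_pm]
  have e4 : sc Φ (g ^ n)⁻¹ ζ = 1 := by
    conv_lhs => rw [← h1]
    rw [sc_inv, h2, inv_one]
  rw [e, pm_mul, e3] at e1
  rw [e, sc_mul, e3, e4, mul_one] at e2
  exact ⟨e1.symm, (right_eq_mul.1 e2)⟩

theorem sq_of_agree {g σ : G} (hσ : σ * σ = 1) {ζ : X} (h1 : pm Φ g ζ = pm Φ σ ζ)
    (h2 : sc Φ g ζ = sc Φ σ ζ) (h3 : pm Φ g (pm Φ σ ζ) = pm Φ σ (pm Φ σ ζ))
    (h4 : sc Φ g (pm Φ σ ζ) = sc Φ σ (pm Φ σ ζ)) :
    pm Φ (g ^ 2) ζ = ζ ∧ sc Φ (g ^ 2) ζ = 1 := by
  rw [pow_two]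
  constructor
  · rw [pm_mul, h1, h3, ← pm_mul, hσ, pm_one]
  · rw [sc_mul, h1, h4, h2, ← sc_mul, hσ, sc_one]

theorem dihedral_pow {t u : G} (ht : t * t = 1) (hu : u * u = 1) (m : ℕ) :
    (t * u) ^ (2 * m + 1) = t * (((t * u) ^ m)⁻¹ * (u * (t * u) ^ m)) := by
  have ht' : t⁻¹ = t := inv_eq_of_mul_eq_one_left ht
  have hu' : u⁻¹ = u := inv_eq_of_mul_eq_one_left hu
  have hr : (t * u)⁻¹ = u * t := by rw [mul_inv_rev, ht', hu']
  have h1 : SemiconjBy u (t * u) (t * u)⁻¹ := by
    change u * (t * u) = (t * u)⁻¹ * u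
    rw [hr]
    group
  have h2 := (h1.pow_right m).eq
  have h3 : SemiconjBy t (t * u)⁻¹ (t * u) := by
    change t * (t * u)⁻¹ = t * u * t
    rw [hr]
    group
  have h4 := (h3.pow_right (2 * m)).eq
  rw [h2, inv_pow, ← mul_assoc, ← mul_assoc, mul_assoc t]
  rw [inv_pow] at h4
  have e : ((t * u) ^ m)⁻¹ * ((t * u) ^ m)⁻¹ = ((t * u) ^ (2 * m))⁻¹ := by
    rw [← mul_inv_rev, ← pow_add]
    congr 2
    omega
  rw [e, h4, pow_succ, mul_assoc]

end General

open IsModel

variable {M : Mach} {G : Type} [Group G]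

/-- register contents as integers -/
def vec (a : ℕ × ℕ) : ℤ × ℤ := ((a.1 : ℤ), (a.2 : ℤ))

/-- the conjugated reflection -/
def refl' (x y : G) (τ : Bool → M.S → G) (s : M.S) (a : ℤ × ℤ) : G :=
  Tr x y a * τ true s * Tr x y (-a)

/-- configuration elements -/
def conf (x y : G) (τ : Bool → M.S → G) (s : M.S) (a : ℤ × ℤ) : G :=
  τ false s * refl' x y τ s a

/-- last digits of the registers -/
def dig (M : Mach) (a : ℕ × ℕ) : M.J := ((a.1 : ZMod M.Q), (a.2 : ZMod M.Q))

/-- registers without the last digits -/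
def quo (M : Mach) (a : ℕ × ℕ) : ℤ × ℤ := (((a.1 / M.Q : ℕ) : ℤ), ((a.2 / M.Q : ℕ) : ℤ))

theorem carry_zero_nat {Q : ℕ} (hQ : 2 ≤ Q) (a : ℕ) :
    carry (0 : ZMod Q) (a : ℤ) = ((a / Q : ℕ) : ℤ) := by
  have : NeZero Q := ⟨by omega⟩
  unfold carry
  rw [ZMod.val_zero]
  push_cast
  rw [zero_add]

theorem carry2_zero (hQ : 2 ≤ M.Q) (a : ℕ × ℕ) :
    carry2 (0 : ZMod M.Q × ZMod M.Q) (vec a) = quo M a := by
  unfold carry2 vec quo
  rw [Prod.fst_zero, Prod.snd_zero, carry_zero_nat hQ, carry_zero_nat hQ]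

theorem sh_zero_vec (a : ℕ × ℕ) : sh (0 : ZMod M.Q × ZMod M.Q) (vec a) = dig M a := by
  simp [sh, vec, dig]

theorem sh_sh_neg {Q : ℕ} (i : ZMod Q × ZMod Q) (a : ℤ × ℤ) : sh (sh i (-a)) a = i := by
  simp [sh]

theorem sh_neg_sh {Q : ℕ} (i : ZMod Q × ZMod Q) (a : ℤ × ℤ) : sh (sh i a) (-a) = i := by
  simp [sh]

theorem carry2_neg {Q : ℕ} (hQ : 2 ≤ Q) (i : ZMod Q × ZMod Q) (a : ℤ × ℤ) :
    carry2 (sh i a) (-a) = - carry2 i a := by
  unfold carry2 sh
  rw [Prod.fst_neg, Prod.snd_neg, carry_neg hQ, carry_neg hQ]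
  rfl

theorem mask_neg (s : M.S) (j : M.J) (v : ℕ) (a : ℤ × ℤ) :
    mask M s j v (-a) = - mask M s j v a := by
  unfold mask
  ext
  · simp only [Prod.fst_neg, apply_ite Neg.neg, neg_zero]
  · simp only [Prod.snd_neg, apply_ite Neg.neg, neg_zero]

theorem mask_odd (s : M.S) (j : M.J) {v : ℕ} (hv : v % 2 = 1) (a : ℤ × ℤ) :
    mask M s j v a = 0 := by
  have h1 : ¬ mu M false s j v = true := by
    simp only [mu, Bool.false_eq_true, if_false, decide_eq_true_eq]
    omega
  have h2 : ¬ mu M true s j v = true := by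
    simp only [mu, if_true, decide_eq_true_eq]
    omega
  simp [mask, h1, h2]

/-- total translation collected on the first `2k` edges of the path -/
def rho (M : Mach) (s : M.S) (j : M.J) (c : ℤ × ℤ) (k : ℕ) : ℤ × ℤ :=
  if k = 0 then 0 else
    off M s j + ((min (k - 1) (M.A s j).1 : ℕ) * c.1, (min (k - 1 - (M.A s j).1) (M.A s j).2 : ℕ) * c.2)

theorem rho_zero (s : M.S) (j : M.J) (c : ℤ × ℤ) : rho M s j c 0 = 0 := by simp [rho]

theorem rho_one (s : M.S) (j : M.J) (c : ℤ × ℤ) : rho M s j c 1 = off M s j := by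
  simp [rho]

theorem rho_succ (s : M.S) (j : M.J) (c : ℤ × ℤ) {k : ℕ} (hk : k ≠ 0) :
    rho M s j c (k + 1) = mask M s j (2 * k) c + rho M s j c k := by
  have e1 : ((min k (M.A s j).1 : ℕ) : ℤ) =
      (if mu M false s j (2 * k) = true then 1 else 0) + ((min (k - 1) (M.A s j).1 : ℕ) : ℤ) := by
    simp only [mu, Bool.false_eq_true, if_false, decide_eq_true_eq]
    split_ifs <;> omega
  have e2 : ((min (k - (M.A s j).1) (M.A s j).2 : ℕ) : ℤ) =
      (if mu M true s j (2 * k) = true then 1 else 0) +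
        ((min (k - 1 - (M.A s j).1) (M.A s j).2 : ℕ) : ℤ) := by
    simp only [mu, if_true, decide_eq_true_eq]
    split_ifs <;> omega
  unfold rho mask
  rw [if_neg (Nat.succ_ne_zero k), if_neg hk, Nat.add_sub_cancel, e1, e2]
  ext
  · simp only [Prod.fst_add]
    split_ifs <;> ring
  · simp only [Prod.snd_add]
    split_ifs <;> ring

theorem rho_last {m : ℕ} (s : M.S) (j : M.J) (c : ℤ × ℤ)
    (hm : (M.A s j).1 + (M.A s j).2 + 2 ≤ m) :
    rho M s j c m = off M s j + (((M.A s j).1 : ℤ) * c.1, ((M.A s j).2 : ℤ) * c.2) := by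
  unfold rho
  rw [if_neg (by omega)]
  have e1 : min (m - 1) (M.A s j).1 = (M.A s j).1 := by omega
  have e2 : min (m - 1 - (M.A s j).1) (M.A s j).2 = (M.A s j).2 := by omega
  rw [e1, e2]

theorem vec_step (s : M.S) (a : ℕ × ℕ) :
    vec (M.step (s, a)).2 = off M s (dig M a) +
      (((M.A s (dig M a)).1 : ℤ) * (quo M a).1, ((M.A s (dig M a)).2 : ℤ) * (quo M a).2) := by
  unfold vec Mach.step off dig quo
  ext
  · simp only [Prod.fst_add]
    push_cast
    ring
  · simp only [Prod.snd_add]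
    push_cast
    ring

namespace IsModel

variable {m : ℕ} {Φ : G →* Wr (Alph M m) G} {x y : G} {τ : Bool → M.S → G} {w g : G}

theorem refl'_sq (hM : IsModel Φ x y τ w g) (s : M.S) (a : ℤ × ℤ) :
    refl' x y τ s a * refl' x y τ s a = 1 := by
  unfold refl'
  have h1 : Tr x y (-a) * Tr x y a = 1 := by
    rw [← hM.Tr_add, neg_add_cancel, Tr_zero]
  have h2 : Tr x y a * Tr x y (-a) = 1 := by
    rw [← hM.Tr_add, add_neg_cancel, Tr_zero]
  calc Tr x y a * τ true s * Tr x y (-a) * (Tr x y a * τ true s * Tr x y (-a))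
      = Tr x y a * τ true s * (Tr x y (-a) * Tr x y a) * τ true s * Tr x y (-a) := by group
    _ = Tr x y a * (τ true s * τ true s) * Tr x y (-a) := by rw [h1]; group
    _ = 1 := by rw [hM.τ_sq, mul_one, h2]

theorem refl'_inactive (hM : IsModel Φ x y τ w g) (s₀ s : M.S) (a : ℤ × ℤ) (j : M.J)
    (v : Fin (2 * m + 1)) (i : M.J) (hn : ¬ (s = s₀ ∧ M.halt s = false ∧ sh i (-a) = 0)) :
    pm Φ (refl' x y τ s₀ a) (blk s j v i) = blk s j v i ∧
      sc Φ (refl' x y τ s₀ a) (blk s j v i) = 1 := by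
  have hT := hM.Tr_blk (-a) s j v i
  have hτ := hM.τ_inactive true s₀ s j v (sh i (-a)) (by simpa [col] using hn)
  have e : Tr x y a * Tr x y (-a) = 1 := by rw [← hM.Tr_add, add_neg_cancel, Tr_zero]
  have e1 := pm_mul Φ (Tr x y a) (Tr x y (-a)) (blk s j v i)
  have e2 := sc_mul Φ (Tr x y a) (Tr x y (-a)) (blk s j v i)
  rw [e, pm_one, hT.1] at e1
  rw [e, sc_one, hT.1] at e2
  unfold refl'
  constructor
  · rw [pm_mul, pm_mul, hT.1, hτ.1, ← e1]
  · rw [sc_mul, sc_mul, hT.1, hτ.1, hτ.2, mul_one, ← e2]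

theorem refl'_active (hM : IsModel Φ x y τ w g) (s : M.S) (a : ℕ × ℕ) (j : M.J)
    (v : Fin (2 * m + 1)) (hh : M.halt s = false) :
    pm Φ (refl' x y τ s (vec a)) (blk s j v (dig M a)) = blk s j (flip true v) (dig M a) ∧
      sc Φ (refl' x y τ s (vec a)) (blk s j v (dig M a)) =
        Tr x y (mask M s j (flip true v).1 (quo M a)) *
          (if v.1 = 2 * m then τ true (M.next s j) else 1) *
            Tr x y (- mask M s j v.1 (quo M a)) := by
  have h0 : sh (dig M a) (-vec a) = 0 := by rw [← sh_zero_vec, sh_neg_sh]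
  have hT := hM.Tr_blk (-vec a) s j v (dig M a)
  rw [h0] at hT
  have hτ := hM.τ_active true s j v 0 hh rfl
  have hT2 := hM.Tr_blk (vec a) s j (flip true v) 0
  rw [sh_zero_vec, carry2_zero hM.hQ] at hT2
  have hc : carry2 (dig M a) (-vec a) = - quo M a := by
    rw [← sh_zero_vec, carry2_neg hM.hQ, carry2_zero hM.hQ]
  rw [hc, mask_neg] at hT
  unfold refl'
  constructor
  · rw [pm_mul, pm_mul, hT.1, hτ.1, hT2.1]
  · rw [sc_mul, sc_mul, hT.1, hτ.1, hT2.2, hτ.2, hT.2]
    congr 2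

/-- the vertex `v` in the active column -/
def pt (M : Mach) (m : ℕ) (s : M.S) (a : ℕ × ℕ) (v : ℕ) (hv : v < 2 * m + 1) : Alph M m :=
  blk s (dig M a) ⟨v, hv⟩ (dig M a)

theorem forward (hM : IsModel Φ x y τ w g) (s : M.S) (a : ℕ × ℕ) (hh : M.halt s = false)
    (k : ℕ) (hk : k ≤ m) :
    pm Φ (conf x y τ s (vec a) ^ k) (pt M m s a 0 (by omega)) =
        pt M m s a (2 * k) (by omega) ∧
      sc Φ (conf x y τ s (vec a) ^ k) (pt M m s a 0 (by omega)) =
        Tr x y (- rho M s (dig M a) (quo M a) k) := by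
  induction k with
  | zero =>
    rw [pow_zero, pm_one, sc_one, rho_zero, neg_zero, Tr_zero]
    exact ⟨rfl, rfl⟩
  | succ k ih =>
    obtain ⟨ih1, ih2⟩ := ih (by omega)
    have hu := hM.refl'_active s a (dig M a) ⟨2 * k, by omega⟩ hh
    have ht := hM.τ_active false s (dig M a) ⟨2 * k + 1, by omega⟩ (dig M a) hh rfl
    have f1 : flip true (⟨2 * k, by omega⟩ : Fin (2 * m + 1)) = ⟨2 * k + 1, by omega⟩ := by
      apply Fin.ext
      have h1 : ¬ 2 * k = 2 * m := by omega
      have h2 : 2 * k % 2 = 0 := by omega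
      simp only [flip, flipN, if_true, if_neg h1, if_pos h2]
    have f2 : flip false (⟨2 * k + 1, by omega⟩ : Fin (2 * m + 1)) =
        ⟨2 * (k + 1), by omega⟩ := by
      apply Fin.ext
      have h2 : (2 * k + 1) % 2 = 1 := by omega
      simp only [flip, flipN, Bool.false_eq_true, if_false, if_neg (Nat.succ_ne_zero (2 * k)),
        if_pos h2]
      omega
    rw [f1] at hu
    rw [f2] at ht
    have c1 : ¬ (2 * k = 2 * m) := by omega
    have c2 : (2 * k + 1) % 2 = 1 := by omega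
    have hu2 := hu.2
    simp only [if_neg c1, mul_one, mask_odd s (dig M a) c2, Tr_zero, one_mul] at hu2
    have ht2 := ht.2
    have c3 : ¬ (2 * k + 1 = endp m false) := by simp [endp]
    have c4 : ¬ (2 * k + 1 = 2) := by omega
    simp only [if_neg c3, true_and, if_neg c4] at ht2
    rw [pow_succ', pm_mul, sc_mul, ih1, ih2]
    unfold pt conf
    rw [pm_mul, sc_mul, hu.1, hu2, ht.1, ht2]
    refine ⟨rfl, ?_⟩
    by_cases hk0 : k = 0
    · subst hk0
      rw [if_pos rfl, rho_zero, neg_zero, Tr_zero, mul_one, zero_add, rho_one]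
      have h0 : mask M s (dig M a) (2 * 0) (quo M a) = 0 := by
        rcases mask_cases s (dig M a) (2 * 0) (quo M a) (hM.hm s (dig M a)) with h | ⟨h, _⟩
        · exact h
        · omega
      rw [h0, neg_zero, Tr_zero, mul_one]
    · have c5 : ¬ (2 * k + 1 = 1) := by omega
      rw [if_neg c5, one_mul, ← hM.Tr_add, rho_succ s _ _ hk0]
      congr 1
      rw [neg_add]

theorem t_refl_sq (hM : IsModel Φ x y τ w g) (s : M.S) (a : ℤ × ℤ) :
    (conf x y τ s a) * τ false s = τ false s * (conf x y τ s a)⁻¹ := by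
  unfold conf
  rw [mul_inv_rev, hM.τ_inv, show (refl' x y τ s a)⁻¹ = refl' x y τ s a from
    inv_eq_of_mul_eq_one_left (hM.refl'_sq s a)]
  group

theorem u_refl_sq (hM : IsModel Φ x y τ w g) (s : M.S) (a : ℤ × ℤ) :
    (conf x y τ s a) * refl' x y τ s a = refl' x y τ s a * (conf x y τ s a)⁻¹ := by
  unfold conf
  rw [mul_inv_rev, hM.τ_inv, show (refl' x y τ s a)⁻¹ = refl' x y τ s a from
    inv_eq_of_mul_eq_one_left (hM.refl'_sq s a), mul_assoc, hM.refl'_sq, mul_one, ← mul_assoc,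
    hM.refl'_sq, one_mul]

/-- The key self-similarity. -/
theorem conf_pow (hM : IsModel Φ x y τ w g) (s : M.S) (a : ℕ × ℕ) (hh : M.halt s = false) :
    pm Φ (conf x y τ s (vec a) ^ (2 * m + 1)) (pt M m s a 0 (by omega)) =
        pt M m s a 0 (by omega) ∧
      sc Φ (conf x y τ s (vec a) ^ (2 * m + 1)) (pt M m s a 0 (by omega)) =
        conf x y τ (M.step (s, a)).1 (vec (M.step (s, a)).2) := by
  obtain ⟨f1, f2⟩ := hM.forward s a hh m le_rfl
  have hinv1 : pm Φ (conf x y τ s (vec a) ^ m)⁻¹ (pt M m s a (2 * m) (by omega)) =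
      pt M m s a 0 (by omega) := by
    rw [← f1, pm_inv_pm]
  have hinv2 : sc Φ (conf x y τ s (vec a) ^ m)⁻¹ (pt M m s a (2 * m) (by omega)) =
      Tr x y (rho M s (dig M a) (quo M a) m) := by
    rw [← f1, sc_inv, f2, ← hM.Tr_neg, neg_neg]
  have hu := hM.refl'_active s a (dig M a) ⟨2 * m, by omega⟩ hh
  have ht := hM.τ_active false s (dig M a) ⟨0, by omega⟩ (dig M a) hh rfl
  have g1 : flip true (⟨2 * m, by omega⟩ : Fin (2 * m + 1)) = ⟨2 * m, by omega⟩ := by
    apply Fin.ext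
    simp [flip, flipN]
  have g2 : flip false (⟨0, by omega⟩ : Fin (2 * m + 1)) = ⟨0, by omega⟩ := by
    apply Fin.ext
    simp [flip, flipN]
  have h0 : mask M s (dig M a) (2 * m) (quo M a) = 0 := by
    rcases mask_cases s (dig M a) (2 * m) (quo M a) (hM.hm s (dig M a)) with h | ⟨_, h⟩
    · exact h
    · omega
  rw [g1] at hu
  rw [g2] at ht
  have hu2 := hu.2
  simp only [h0, neg_zero, Tr_zero, one_mul, mul_one, if_true] at hu2
  have ht2 := ht.2
  have c1 : (0 : ℕ) = endp m false := by simp [endp]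
  simp only [if_pos c1] at ht2
  have hd : conf x y τ s (vec a) ^ (2 * m + 1) = τ false s *
      ((conf x y τ s (vec a) ^ m)⁻¹ * (refl' x y τ s (vec a) * conf x y τ s (vec a) ^ m)) :=
    dihedral_pow (hM.τ_sq false s) (hM.refl'_sq s (vec a)) m
  have hu1' : pm Φ (refl' x y τ s (vec a)) (pt M m s a (2 * m) (by omega)) =
    pt M m s a (2 * m) (by omega) := hu.1
  have hu2' : sc Φ (refl' x y τ s (vec a)) (pt M m s a (2 * m) (by omega)) =
    τ true (M.next s (dig M a)) := hu2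
  have ht1' : pm Φ (τ false s) (pt M m s a 0 (by omega)) = pt M m s a 0 (by omega) := ht.1
  have ht2' : sc Φ (τ false s) (pt M m s a 0 (by omega)) = τ false (M.next s (dig M a)) := ht2
  rw [hd, pm_mul, pm_mul, pm_mul, sc_mul, sc_mul, sc_mul, pm_mul, pm_mul, f1, f2, hu1', hu2',
    hinv1, hinv2, ht1', ht2']
  refine ⟨rfl, ?_⟩
  rw [rho_last s _ _ (hM.hm s (dig M a)), ← vec_step]
  unfold conf refl'
  simp only [mul_assoc]
  rfl

theorem pt_ne (s : M.S) (a : ℕ × ℕ) {v v' : ℕ} (hv : v < 2 * m + 1) (hv' : v' < 2 * m + 1)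
    (hne : v ≠ v') : pt M m s a v hv ≠ pt M m s a v' hv' := by
  intro h
  have h2 := (blk_inj h).2.2.1
  exact hne (congrArg Fin.val h2)

theorem conf_pow_ne (hM : IsModel Φ x y τ w g) (s : M.S) (a : ℕ × ℕ) (hh : M.halt s = false)
    (k : ℕ) (hk0 : k ≠ 0) (hk : k < 2 * m + 1) :
    pm Φ (conf x y τ s (vec a) ^ k) (pt M m s a 0 (by omega)) ≠ pt M m s a 0 (by omega) := by
  rcases Nat.lt_or_ge m k with h | h
  · intro he
    have h1 := (hM.forward s a hh (2 * m + 1 - k) (by omega)).1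
    have h2 := (hM.conf_pow s a hh).1
    have e : conf x y τ s (vec a) ^ (2 * m + 1) =
        conf x y τ s (vec a) ^ (2 * m + 1 - k) * conf x y τ s (vec a) ^ k := by
      rw [← pow_add]
      congr 1
      omega
    rw [e, pm_mul, he, h1] at h2
    exact pt_ne s a _ _ (by omega) h2
  · rw [(hM.forward s a hh k h).1]
    exact pt_ne s a _ _ (by omega)

theorem infinite_order (hM : IsModel Φ x y τ w g) (r : ℕ) : ∀ (s : M.S) (a : ℕ × ℕ),
    ¬ M.Halts (s, a) → r ≠ 0 → conf x y τ s (vec a) ^ r ≠ 1 := by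
  induction r using Nat.strong_induction_on with
  | _ r ih =>
    intro s a hn hr he
    have hh : M.halt s = false := by
      by_contra h
      exact hn ⟨0, by simpa using h⟩
    have hP := hM.conf_pow s a hh
    have hdm := Nat.mod_add_div r (2 * m + 1)
    have hlt := Nat.mod_lt r (show 2 * m + 1 > 0 by omega)
    have hq := pow_fixed hP.1 (r / (2 * m + 1))
    rw [← pow_mul] at hq
    have h1 : pm Φ (conf x y τ s (vec a) ^ r) (pt M m s a 0 (by omega)) =
        pm Φ (conf x y τ s (vec a) ^ (r % (2 * m + 1))) (pt M m s a 0 (by omega)) := by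
      conv_lhs => rw [← hdm]
      rw [pow_add, pm_mul, hq.1]
    have h2 : r % (2 * m + 1) = 0 := by
      by_contra h
      apply hM.conf_pow_ne s a hh _ h hlt
      rw [← h1, he, pm_one]
    have h3 : r = (2 * m + 1) * (r / (2 * m + 1)) := by omega
    have h4 : sc Φ (conf x y τ s (vec a) ^ r) (pt M m s a 0 (by omega)) =
        conf x y τ (M.step (s, a)).1 (vec (M.step (s, a)).2) ^ (r / (2 * m + 1)) := by
      have e : conf x y τ s (vec a) ^ r =
          conf x y τ s (vec a) ^ ((2 * m + 1) * (r / (2 * m + 1))) :=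
        congrArg (fun n => conf x y τ s (vec a) ^ n) h3
      rw [e, hq.2, hP.2]
    rw [he, sc_one] at h4
    have hm2 : 2 ≤ m := by have := hM.hm s (dig M a); omega
    have h5 : r / (2 * m + 1) ≠ 0 := by
      intro h
      rw [h, mul_zero] at h3
      exact hr h3
    have h6 : r / (2 * m + 1) < r := Nat.div_lt_self (Nat.pos_of_ne_zero hr) (by omega)
    exact ih _ h6 _ _ (fun h => hn (M.halts_of_step h)) h5 h4.symm

theorem τ_halt (hM : IsModel Φ x y τ w g) (c : Bool) (s : M.S) (hh : M.halt s = true) :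
    τ c s = 1 := by
  have hn : ∀ s' : M.S, ¬ (s' = s ∧ M.halt s' = false) := by
    rintro s' ⟨rfl, h⟩
    rw [hh] at h
    exact absurd h (by simp)
  apply hM.faithful.eq_one
  · rintro (_ | _ | ⟨s', j, v, i⟩)
    · exact hM.τ_none c s
    · exact hM.τ_some c s
    · exact (hM.τ_inactive c s s' j v i (fun h => hn s' ⟨h.1, h.2.1⟩)).1
  · rintro (_ | _ | ⟨s', j, v, i⟩)
    · exact hM.τ_none' c s
    · exact hM.τ_some' c s
    · exact (hM.τ_inactive c s s' j v i (fun h => hn s' ⟨h.1, h.2.1⟩)).2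

theorem refl'_none (hM : IsModel Φ x y τ w g) (s : M.S) (a : ℤ × ℤ) :
    pm Φ (refl' x y τ s a) none = none ∧ sc Φ (refl' x y τ s a) none = 1 := by
  unfold refl'
  rw [pm_mul, pm_mul, sc_mul, sc_mul, (hM.Tr_none _).1, (hM.Tr_none _).2, hM.τ_none, hM.τ_none',
    (hM.Tr_none _).1, (hM.Tr_none _).2]
  exact ⟨rfl, by group⟩

theorem refl'_some (hM : IsModel Φ x y τ w g) (s : M.S) (a : ℤ × ℤ) :
    pm Φ (refl' x y τ s a) (some none) = some none ∧
      sc Φ (refl' x y τ s a) (some none) = 1 := by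
  unfold refl'
  rw [pm_mul, pm_mul, sc_mul, sc_mul, (hM.Tr_some _).1, (hM.Tr_some _).2, hM.τ_some, hM.τ_some',
    (hM.Tr_some _).1, (hM.Tr_some _).2]
  exact ⟨rfl, by group⟩

theorem conf_none (hM : IsModel Φ x y τ w g) (s : M.S) (a : ℤ × ℤ) :
    pm Φ (conf x y τ s a) none = none ∧ sc Φ (conf x y τ s a) none = 1 := by
  unfold conf
  rw [pm_mul, sc_mul, (hM.refl'_none _ _).1, (hM.refl'_none _ _).2, hM.τ_none, hM.τ_none']
  exact ⟨rfl, mul_one 1⟩

theorem conf_some (hM : IsModel Φ x y τ w g) (s : M.S) (a : ℤ × ℤ) :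
    pm Φ (conf x y τ s a) (some none) = some none ∧
      sc Φ (conf x y τ s a) (some none) = 1 := by
  unfold conf
  rw [pm_mul, sc_mul, (hM.refl'_some _ _).1, (hM.refl'_some _ _).2, hM.τ_some, hM.τ_some']
  exact ⟨rfl, mul_one 1⟩

/-- outside the active column the square of a configuration element is trivial -/
theorem conf_sq (hM : IsModel Φ x y τ w g) (s₀ s : M.S) (a : ℕ × ℕ) (j : M.J)
    (v : Fin (2 * m + 1)) (i : M.J)
    (hn : ¬ (s = s₀ ∧ M.halt s = false ∧ j = dig M a ∧ i = dig M a)) :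
    pm Φ (conf x y τ s₀ (vec a) ^ 2) (blk s j v i) = blk s j v i ∧
      sc Φ (conf x y τ s₀ (vec a) ^ 2) (blk s j v i) = 1 := by
  by_cases ht : s = s₀ ∧ M.halt s = false ∧ i = col M false j
  · -- the reflection `t` is active, `u'` is not
    have hu : ∀ v : Fin (2 * m + 1), pm Φ (refl' x y τ s₀ (vec a)) (blk s j v i) = blk s j v i ∧
        sc Φ (refl' x y τ s₀ (vec a)) (blk s j v i) = 1 := by
      intro v
      apply hM.refl'_inactive
      rintro ⟨h1, h2, h3⟩
      apply hn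
      have hi : i = dig M a := by
        rw [← sh_sh_neg i (vec a), h3, sh_zero_vec]
      have hij : i = j := by simpa [col] using ht.2.2
      exact ⟨h1, h2, by rw [← hij, hi], hi⟩
    have hg : ∀ v : Fin (2 * m + 1),
        pm Φ (conf x y τ s₀ (vec a)) (blk s j v i) = pm Φ (τ false s₀) (blk s j v i) ∧
        sc Φ (conf x y τ s₀ (vec a)) (blk s j v i) = sc Φ (τ false s₀) (blk s j v i) := by
      intro v
      unfold conf
      rw [pm_mul, sc_mul, (hu v).1, (hu v).2, mul_one]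
      exact ⟨rfl, rfl⟩
    obtain ⟨rfl, hh, hi⟩ := ht
    have hta := (hM.τ_active false s j v i hh hi).1
    refine sq_of_agree (hM.τ_sq false s) (hg v).1 (hg v).2 ?_ ?_
    · rw [hta]; exact (hg _).1
    · rw [hta]; exact (hg _).2
  · have htt : ∀ v : Fin (2 * m + 1), pm Φ (τ false s₀) (blk s j v i) = blk s j v i ∧
        sc Φ (τ false s₀) (blk s j v i) = 1 := fun v => hM.τ_inactive false s₀ s j v i ht
    by_cases hu : s = s₀ ∧ M.halt s = false ∧ sh i (-vec a) = 0
    · obtain ⟨rfl, hh, h3⟩ := hu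
      have hi : i = dig M a := by
        rw [← sh_sh_neg i (vec a), h3, sh_zero_vec]
      subst hi
      have hua := fun v => (hM.refl'_active s a j v hh).1
      have hg : ∀ v : Fin (2 * m + 1),
          pm Φ (conf x y τ s (vec a)) (blk s j v (dig M a)) =
            pm Φ (refl' x y τ s (vec a)) (blk s j v (dig M a)) ∧
          sc Φ (conf x y τ s (vec a)) (blk s j v (dig M a)) =
            sc Φ (refl' x y τ s (vec a)) (blk s j v (dig M a)) := by
        intro v
        unfold conf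
        rw [pm_mul, sc_mul, hua v, (htt _).1, (htt _).2, one_mul]
        exact ⟨rfl, rfl⟩
      refine sq_of_agree (hM.refl'_sq s (vec a)) (hg v).1 (hg v).2 ?_ ?_
      · rw [hua v]; exact (hg _).1
      · rw [hua v]; exact (hg _).2
    · have hui := hM.refl'_inactive s₀ s (vec a) j v i hu
      have hg : pm Φ (conf x y τ s₀ (vec a)) (blk s j v i) = blk s j v i ∧
          sc Φ (conf x y τ s₀ (vec a)) (blk s j v i) = 1 := by
        unfold conf
        rw [pm_mul, sc_mul, hui.1, hui.2, (htt v).1, (htt v).2]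
        exact ⟨rfl, mul_one 1⟩
      have := pow_fixed hg.1 2
      rw [hg.2, one_pow] at this
      exact this

theorem finite_order_step (hM : IsModel Φ x y τ w g) (s : M.S) (a : ℕ × ℕ) (r : ℕ)
    (hr : conf x y τ (M.step (s, a)).1 (vec (M.step (s, a)).2) ^ r = 1)
    (hh : M.halt s = false) :
    conf x y τ s (vec a) ^ (2 * ((2 * m + 1) * r)) = 1 := by
  have hcol : ∀ (v : ℕ) (hv : v < 2 * m + 1),
      pm Φ (conf x y τ s (vec a) ^ ((2 * m + 1) * r)) (pt M m s a v hv) = pt M m s a v hv ∧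
      sc Φ (conf x y τ s (vec a) ^ ((2 * m + 1) * r)) (pt M m s a v hv) = 1 := by
    intro v
    induction v with
    | zero =>
      intro hv
      have hP := hM.conf_pow s a hh
      have hq := pow_fixed hP.1 r
      rw [← pow_mul, hP.2, hr] at hq
      exact hq
    | succ v ih =>
      intro hv
      obtain ⟨ih1, ih2⟩ := ih (by omega)
      rcases Nat.mod_two_eq_zero_or_one v with h2 | h2
      · have e : pt M m s a (v + 1) hv =
            pm Φ (refl' x y τ s (vec a)) (pt M m s a v (by omega)) := by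
          unfold pt
          rw [(hM.refl'_active s a (dig M a) _ hh).1]
          congr 1
          apply Fin.ext
          have h3 : ¬ v = 2 * m := by omega
          simp only [flip, flipN, if_true, if_neg h3, if_pos h2]
        rw [e]
        exact conj_fixed (hM.u_refl_sq s (vec a)) ih1 ih2
      · have e : pt M m s a (v + 1) hv =
            pm Φ (τ false s) (pt M m s a v (by omega)) := by
          unfold pt
          rw [(hM.τ_active false s (dig M a) _ (dig M a) hh rfl).1]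
          congr 1
          apply Fin.ext
          have h3 : ¬ v = 0 := by omega
          simp only [flip, flipN, Bool.false_eq_true, if_false, if_neg h3, if_pos h2]
        rw [e]
        exact conj_fixed (hM.t_refl_sq s (vec a)) ih1 ih2
  have all : ∀ ζ : Alph M m, pm Φ (conf x y τ s (vec a) ^ (2 * ((2 * m + 1) * r))) ζ = ζ ∧
      sc Φ (conf x y τ s (vec a) ^ (2 * ((2 * m + 1) * r))) ζ = 1 := by
    rintro (_ | _ | ⟨s', j, v, i⟩)
    · have h := pow_fixed (hM.conf_none s (vec a)).1 (2 * ((2 * m + 1) * r))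
      rw [(hM.conf_none s (vec a)).2, one_pow] at h
      exact h
    · have h := pow_fixed (hM.conf_some s (vec a)).1 (2 * ((2 * m + 1) * r))
      rw [(hM.conf_some s (vec a)).2, one_pow] at h
      exact h
    · change pm Φ _ (blk s' j v i) = blk s' j v i ∧ sc Φ _ (blk s' j v i) = 1
      by_cases hc : s' = s ∧ M.halt s' = false ∧ j = dig M a ∧ i = dig M a
      · obtain ⟨rfl, _, rfl, rfl⟩ := hc
        have h := hcol v.1 v.2
        have h' := pow_fixed h.1 2
        rw [h.2, one_pow, ← pow_mul, mul_comm _ 2] at h'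
        exact h'
      · have h := hM.conf_sq s s' a j v i hc
        have h' := pow_fixed h.1 ((2 * m + 1) * r)
        rw [h.2, one_pow, ← pow_mul] at h'
        exact h'
  exact hM.faithful.eq_one (fun ζ => (all ζ).1) (fun ζ => (all ζ).2)

theorem finite_order (hM : IsModel Φ x y τ w g) (k : ℕ) : ∀ (s : M.S) (a : ℕ × ℕ),
    M.halt ((M.step^[k] (s, a)).1) = true → ∃ r, r ≠ 0 ∧ conf x y τ s (vec a) ^ r = 1 := by
  induction k with
  | zero =>
    intro s a h
    refine ⟨1, one_ne_zero, ?_⟩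
    have hs : M.halt s = true := h
    unfold conf refl'
    rw [hM.τ_halt false s hs, hM.τ_halt true s hs, pow_one, one_mul, mul_one, ← hM.Tr_add,
      add_neg_cancel, Tr_zero]
  | succ k ih =>
    intro s a h
    by_cases hs : M.halt s = true
    · refine ⟨1, one_ne_zero, ?_⟩
      unfold conf refl'
      rw [hM.τ_halt false s hs, hM.τ_halt true s hs, pow_one, one_mul, mul_one, ← hM.Tr_add,
        add_neg_cancel, Tr_zero]
    · have hs' : M.halt s = false := by simpa using hs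
      rw [Function.iterate_succ_apply] at h
      obtain ⟨r, hr0, hr⟩ := ih (M.step (s, a)).1 (M.step (s, a)).2 h
      exact ⟨2 * ((2 * m + 1) * r), by positivity, hM.finite_order_step s a r hr hs'⟩

theorem order_iff (hM : IsModel Φ x y τ w g) (s : M.S) (a : ℕ × ℕ) :
    (∃ r, r ≠ 0 ∧ conf x y τ s (vec a) ^ r = 1) ↔ M.Halts (s, a) := by
  constructor
  · rintro ⟨r, hr0, hr⟩
    by_contra hn
    exact hM.infinite_order r s a hn hr0 hr
  · rintro ⟨k, hk⟩
    exact hM.finite_order k s a hk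

end IsModel

end Pool.Agent.WreathContraction
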