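import Pool.Agent.Lib.MP_e16db3_al.Mach

/-!
# Turing machines with finitely many states as two-register affine machines
-/

namespace Pool.Agent.WreathContraction

open Turing Classical

section Digits

variable {Γ : Type} [Inhabited Γ] [Fintype Γ]

/-- base -/
noncomputable def baseQ (Γ : Type) [Fintype Γ] : ℕ := Fintype.card Γ + 1

theorem two_le_baseQ : 2 ≤ baseQ Γ := by
  have : 0 < Fintype.card Γ := Fintype.card_pos
  unfold baseQ
  omega

/-- the digit of a symbol; the blank symbol has digit `0` -/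
noncomputable def dig₀ (a : Γ) : ℕ := if a = default then 0 else (Fintype.equivFin Γ a).val + 1

theorem dig₀_default : dig₀ (default : Γ) = 0 := if_pos rfl

theorem dig₀_lt (a : Γ) : dig₀ a < baseQ Γ := by
  unfold dig₀ baseQ
  split_ifs
  · omega
  · have := (Fintype.equivFin Γ a).2
    omega

theorem dig₀_inj : Function.Injective (dig₀ : Γ → ℕ) := by
  intro a b h
  unfold dig₀ at h
  by_cases h1 : a = default
  · by_cases h2 : b = default
    · rw [h1, h2]
    · rw [if_pos h1, if_neg h2] at h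
      exact absurd h (by omega)
  · by_cases h2 : b = default
    · rw [if_neg h1, if_pos h2] at h
      exact absurd h (by omega)
    · rw [if_neg h1, if_neg h2] at h
      apply (Fintype.equivFin Γ).injective
      apply Fin.ext
      omega

theorem digZ_inj : Function.Injective fun a : Γ => ((dig₀ a : ℕ) : ZMod (baseQ Γ)) := by
  intro a b h
  have h2 := (ZMod.natCast_eq_natCast_iff' _ _ _).1 h
  rw [Nat.mod_eq_of_lt (dig₀_lt a), Nat.mod_eq_of_lt (dig₀_lt b)] at h2
  exact dig₀_inj h2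

/-- the symbol of a digit -/
noncomputable def un (z : ZMod (baseQ Γ)) : Γ :=
  Function.invFun (fun a : Γ => ((dig₀ a : ℕ) : ZMod (baseQ Γ))) z

theorem un_dig (a : Γ) : un ((dig₀ a : ℕ) : ZMod (baseQ Γ)) = a :=
  Function.leftInverse_invFun digZ_inj a

/-- the number of a list of symbols -/
noncomputable def num (l : List Γ) : ℕ := l.foldr (fun a n => dig₀ a + baseQ Γ * n) 0

theorem num_nil : num ([] : List Γ) = 0 := rfl

theorem num_cons (a : Γ) (l : List Γ) : num (a :: l) = dig₀ a + baseQ Γ * num l := rfl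

theorem num_append_replicate (l : List Γ) (n : ℕ) :
    num (l ++ List.replicate n default) = num l := by
  induction l with
  | nil =>
    induction n with
    | zero => rfl
    | succ n ih =>
      rw [List.nil_append] at ih ⊢
      rw [List.replicate_succ, num_cons, ih, dig₀_default, num_nil, mul_zero, add_zero]
  | cons a l ih => rw [List.cons_append, num_cons, num_cons, ih]

/-- the number of a half tape -/
noncomputable def numB (L : ListBlank Γ) : ℕ :=
  L.liftOn num (by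
    rintro l₁ l₂ ⟨n, rfl⟩
    exact (num_append_replicate l₁ n).symm)

theorem numB_mk (l : List Γ) : numB (ListBlank.mk l) = num l := rfl

theorem numB_cons (a : Γ) (L : ListBlank Γ) : numB (L.cons a) = dig₀ a + baseQ Γ * numB L := by
  induction L using ListBlank.induction_on with
  | h l => rw [ListBlank.cons_mk, numB_mk, numB_mk, num_cons]

theorem numB_eq (L : ListBlank Γ) : numB L = dig₀ L.head + baseQ Γ * numB L.tail := by
  conv_lhs => rw [← ListBlank.cons_head_tail L]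
  rw [numB_cons]

theorem numB_div (L : ListBlank Γ) : numB L / baseQ Γ = numB L.tail := by
  have h := two_le_baseQ (Γ := Γ)
  rw [numB_eq, Nat.add_mul_div_left _ _ (by omega), Nat.div_eq_of_lt (dig₀_lt _), zero_add]

theorem numB_mod (L : ListBlank Γ) : numB L % baseQ Γ = dig₀ L.head := by
  rw [numB_eq, Nat.add_mul_mod_self_left, Nat.mod_eq_of_lt (dig₀_lt _)]

theorem numB_zmod (L : ListBlank Γ) :
    ((numB L : ℕ) : ZMod (baseQ Γ)) = ((dig₀ L.head : ℕ) : ZMod (baseQ Γ)) := by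
  rw [← numB_mod L]
  simp

theorem numB_val (L : ListBlank Γ) : ((numB L : ℕ) : ZMod (baseQ Γ)).val = dig₀ L.head := by
  rw [ZMod.val_natCast, numB_mod]

theorem un_numB (L : ListBlank Γ) : un ((numB L : ℕ) : ZMod (baseQ Γ)) = L.head := by
  rw [numB_zmod, un_dig]

end Digits

section Sim

variable {Γ Λ : Type} [Inhabited Γ] [Fintype Γ] [Inhabited Λ]

/-- the transition data of the machine -/
noncomputable def trans (Mc : TM0.Machine Γ Λ) (S : Set Λ) (q : S) (a : Γ)
    (j : ZMod (baseQ Γ) × ZMod (baseQ Γ)) : (S × Γ) × (ℕ × ℕ) × (ℕ × ℕ) :=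
  match Mc q.1 a with
  | none => ((q, a), (0, 0), (0, 0))
  | some (q', TM0.Stmt.write b) =>
    ((if h : q' ∈ S then ⟨q', h⟩ else q, b), (baseQ Γ, baseQ Γ), (j.1.val, j.2.val))
  | some (q', TM0.Stmt.move Dir.left) =>
    ((if h : q' ∈ S then ⟨q', h⟩ else q, un j.1), (1, baseQ Γ * baseQ Γ),
      (0, baseQ Γ * j.2.val + dig₀ a))
  | some (q', TM0.Stmt.move Dir.right) =>
    ((if h : q' ∈ S then ⟨q', h⟩ else q, un j.2), (baseQ Γ * baseQ Γ, 1),
      (baseQ Γ * j.1.val + dig₀ a, 0))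

/-- the two-register machine of a Turing machine -/
noncomputable def machOf (Mc : TM0.Machine Γ Λ) (S : Set Λ) : Mach where
  S := S × Γ
  Q := baseQ Γ
  halt s := (Mc s.1.1 s.2).isNone
  next s j := (trans Mc S s.1 s.2 j).1
  A s j := (trans Mc S s.1 s.2 j).2.1
  B s j := (trans Mc S s.1 s.2 j).2.2

/-- the configuration of the two-register machine -/
noncomputable def enc (S : Set Λ) (Mc : TM0.Machine Γ Λ) (c : TM0.Cfg Γ Λ) (h : c.q ∈ S) :
    (machOf Mc S).S × ℕ × ℕ :=
  ((⟨c.q, h⟩, c.Tape.head), numB c.Tape.left, numB c.Tape.right)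

theorem halt_enc (S : Set Λ) (Mc : TM0.Machine Γ Λ) (c : TM0.Cfg Γ Λ) (h : c.q ∈ S) :
    (machOf Mc S).halt (enc S Mc c h).1 = true ↔ TM0.step Mc c = none := by
  obtain ⟨q, T⟩ := c
  change (Mc q T.head).isNone = true ↔ (Mc q T.1).map _ = none
  rw [Option.isNone_iff_eq_none, Option.map_eq_none_iff]

theorem step_enc (S : Set Λ) (Mc : TM0.Machine Γ Λ) (c c' : TM0.Cfg Γ Λ) (h : c.q ∈ S)
    (h' : c'.q ∈ S) (hs : TM0.step Mc c = some c') :
    (machOf Mc S).step (enc S Mc c h) = enc S Mc c' h' := by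
  obtain ⟨q, ⟨a, L, R⟩⟩ := c
  have hs' : (Mc q a).map (fun p => (⟨p.1, match p.2 with
    | TM0.Stmt.move d => (⟨a, L, R⟩ : Tape Γ).move d
    | TM0.Stmt.write b => (⟨a, L, R⟩ : Tape Γ).write b⟩ : TM0.Cfg Γ Λ)) = some c' := hs
  have hQ := two_le_baseQ (Γ := Γ)
  obtain ⟨⟨q', st⟩, h1, rfl⟩ := Option.map_eq_some_iff.1 hs'
  have hq' : q' ∈ S := h'
  have eL : (((numB L : ℕ) : ZMod (baseQ Γ))).val + baseQ Γ * (numB L / baseQ Γ) = numB L := by
    rw [numB_val, numB_div, ← numB_eq]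
  have eR : (((numB R : ℕ) : ZMod (baseQ Γ))).val + baseQ Γ * (numB R / baseQ Γ) = numB R := by
    rw [numB_val, numB_div, ← numB_eq]
  rcases st with (_ | _) | b
  · -- move left
    have ht : trans Mc S ⟨q, h⟩ a ((numB L : ℕ), (numB R : ℕ)) =
        ((⟨q', hq'⟩, un ((numB L : ℕ) : ZMod (baseQ Γ))), (1, baseQ Γ * baseQ Γ),
      (0, baseQ Γ * ((numB R : ℕ) : ZMod (baseQ Γ)).val + dig₀ a)) := by
      unfold trans
      simp only [h1, dif_pos hq']
    have hstep : (machOf Mc S).step (enc S Mc ⟨q, ⟨a, L, R⟩⟩ h) =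
      ((trans Mc S ⟨q, h⟩ a ((numB L : ℕ), (numB R : ℕ))).1,
        (trans Mc S ⟨q, h⟩ a ((numB L : ℕ), (numB R : ℕ))).2.1.1 * (numB L / baseQ Γ) +
          (trans Mc S ⟨q, h⟩ a ((numB L : ℕ), (numB R : ℕ))).2.2.1,
        (trans Mc S ⟨q, h⟩ a ((numB L : ℕ), (numB R : ℕ))).2.1.2 * (numB R / baseQ Γ) +
          (trans Mc S ⟨q, h⟩ a ((numB L : ℕ), (numB R : ℕ))).2.2.2) := rfl
    rw [hstep, ht]
    change ((((⟨q', hq'⟩ : S), un ((numB L : ℕ) : ZMod (baseQ Γ))), 1 * (numB L / baseQ Γ) + 0,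
      baseQ Γ * baseQ Γ * (numB R / baseQ Γ) +
        (baseQ Γ * ((numB R : ℕ) : ZMod (baseQ Γ)).val + dig₀ a)) : (S × Γ) × ℕ × ℕ) =
      (((⟨q', hq'⟩ : S), L.head), numB L.tail, numB (R.cons a))
    rw [un_numB, numB_cons, one_mul, add_zero, numB_div L, mul_assoc]
    congr 2
    conv_rhs => rw [← eR]
    ring
  · -- move right
    have ht : trans Mc S ⟨q, h⟩ a ((numB L : ℕ), (numB R : ℕ)) =
        ((⟨q', hq'⟩, un ((numB R : ℕ) : ZMod (baseQ Γ))), (baseQ Γ * baseQ Γ, 1),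
      (baseQ Γ * ((numB L : ℕ) : ZMod (baseQ Γ)).val + dig₀ a, 0)) := by
      unfold trans
      simp only [h1, dif_pos hq']
    have hstep : (machOf Mc S).step (enc S Mc ⟨q, ⟨a, L, R⟩⟩ h) =
      ((trans Mc S ⟨q, h⟩ a ((numB L : ℕ), (numB R : ℕ))).1,
        (trans Mc S ⟨q, h⟩ a ((numB L : ℕ), (numB R : ℕ))).2.1.1 * (numB L / baseQ Γ) +
          (trans Mc S ⟨q, h⟩ a ((numB L : ℕ), (numB R : ℕ))).2.2.1,
        (trans Mc S ⟨q, h⟩ a ((numB L : ℕ), (numB R : ℕ))).2.1.2 * (numB R / baseQ Γ) +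
          (trans Mc S ⟨q, h⟩ a ((numB L : ℕ), (numB R : ℕ))).2.2.2) := rfl
    rw [hstep, ht]
    change ((((⟨q', hq'⟩ : S), un ((numB R : ℕ) : ZMod (baseQ Γ))),
      baseQ Γ * baseQ Γ * (numB L / baseQ Γ) +
        (baseQ Γ * ((numB L : ℕ) : ZMod (baseQ Γ)).val + dig₀ a),
      1 * (numB R / baseQ Γ) + 0) : (S × Γ) × ℕ × ℕ) =
      (((⟨q', hq'⟩ : S), R.head), numB (L.cons a), numB R.tail)
    rw [un_numB, numB_cons, one_mul, add_zero, numB_div R, mul_assoc]
    congr 2
    conv_rhs => rw [← eL]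
    ring
  · -- write
    have ht : trans Mc S ⟨q, h⟩ a ((numB L : ℕ), (numB R : ℕ)) =
        ((⟨q', hq'⟩, b), (baseQ Γ, baseQ Γ),
      (((numB L : ℕ) : ZMod (baseQ Γ)).val, ((numB R : ℕ) : ZMod (baseQ Γ)).val)) := by
      unfold trans
      simp only [h1, dif_pos hq']
    have hstep : (machOf Mc S).step (enc S Mc ⟨q, ⟨a, L, R⟩⟩ h) =
      ((trans Mc S ⟨q, h⟩ a ((numB L : ℕ), (numB R : ℕ))).1,
        (trans Mc S ⟨q, h⟩ a ((numB L : ℕ), (numB R : ℕ))).2.1.1 * (numB L / baseQ Γ) +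
          (trans Mc S ⟨q, h⟩ a ((numB L : ℕ), (numB R : ℕ))).2.2.1,
        (trans Mc S ⟨q, h⟩ a ((numB L : ℕ), (numB R : ℕ))).2.1.2 * (numB R / baseQ Γ) +
          (trans Mc S ⟨q, h⟩ a ((numB L : ℕ), (numB R : ℕ))).2.2.2) := rfl
    rw [hstep, ht]
    change ((((⟨q', hq'⟩ : S), b), baseQ Γ * (numB L / baseQ Γ) +
      ((numB L : ℕ) : ZMod (baseQ Γ)).val,
      baseQ Γ * (numB R / baseQ Γ) + ((numB R : ℕ) : ZMod (baseQ Γ)).val) : (S × Γ) × ℕ × ℕ) =
      (((⟨q', hq'⟩ : S), b), numB L, numB R)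
    rw [add_comm, eL, add_comm, eR]

theorem halts_enc (S : Set Λ) (Mc : TM0.Machine Γ Λ) (hS : TM0.Supports Mc S)
    (c : TM0.Cfg Γ Λ) (h : c.q ∈ S) :
    (machOf Mc S).Halts (enc S Mc c h) ↔ (StateTransition.eval (TM0.step Mc) c).Dom := by
  constructor
  · rintro ⟨k, hk⟩
    induction k generalizing c with
    | zero =>
      have h1 := (halt_enc S Mc c h).1 hk
      exact Part.dom_iff_mem.2 ⟨c, StateTransition.mem_eval.2 ⟨Relation.ReflTransGen.refl, h1⟩⟩
    | succ k ih =>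
      rcases hs : TM0.step Mc c with _ | c'
      · exact Part.dom_iff_mem.2 ⟨c, StateTransition.mem_eval.2 ⟨Relation.ReflTransGen.refl, hs⟩⟩
      · have h' : c'.q ∈ S := TM0.step_supports Mc hS hs h
        rw [Function.iterate_succ_apply, step_enc S Mc c c' h h' hs] at hk
        have h2 := ih c' h' hk
        rwa [← StateTransition.reaches_eval (f := TM0.step Mc) (a := c) (b := c')
          (Relation.ReflTransGen.single hs)] at h2
  · intro hd
    obtain ⟨b, hb⟩ := Part.dom_iff_mem.1 hd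
    obtain ⟨hr, hb0⟩ := StateTransition.mem_eval.1 hb
    have key : ∀ c, StateTransition.Reaches (TM0.step Mc) c b → ∀ h : c.q ∈ S,
        (machOf Mc S).Halts (enc S Mc c h) := by
      intro c hr
      induction hr using Relation.ReflTransGen.head_induction_on with
      | refl =>
        intro h
        exact ⟨0, (halt_enc S Mc b h).2 hb0⟩
      | @head c c' hc _ ih =>
        intro h
        have h' : c'.q ∈ S := TM0.step_supports Mc hS hc h
        apply Mach.halts_of_step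
        rw [step_enc S Mc c c' h h' hc]
        exact ih h'
    exact key c hr h

end Sim

end Pool.Agent.WreathContraction
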